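import Pool.Agent.H646.SSR.Star

/-!
# Club many countable sets have a good club
-/

namespace Pool.Agent.H646.SSR

open Cardinal Ordinal Set Filter Order

universe u v

open Classical in
/-- a fixed normal cofinal map into `ζ`, if there is one -/
noncomputable def eN (ζ : Ordinal.{u}) : Ordinal.{u} → Ordinal.{u} :=
  if h : ∃ e, Norm e ζ then h.choose else id

theorem eN_norm {ζ : Ordinal.{u}} (h : ∃ e, Norm e ζ) : Norm (eN ζ) ζ := by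
  have : eN ζ = h.choose := dif_pos h
  rw [this]
  exact h.choose_spec

/-- `C` is good for `x` at `δ`. -/
def Good (δ : Ordinal.{u}) (x C : Set Ordinal.{u}) : Prop :=
  ∀ ζ ∈ x, (∃ e, Norm e ζ) → (eN ζ δ ∈ acc C ∨ ∀ c ∈ C, eN ζ δ ≤ c → ζ ≤ c)

/-- the ordinals below `κ` coded in `M` -/
def oM (κ : Cardinal.{u}) {U : Type u} (j : Ordinal.{u} → U) (M : Set U) : Set Ordinal.{u} :=
  {α | α < κ.ord ∧ j α ∈ M}

theorem ev_lt_omega1 : ∀ᶠ δ in CF (ℵ₁ : Cardinal.{u}), δ < ω₁ := by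
  have := ev_lt (ℵ₁ : Cardinal.{u})
  rwa [show (ℵ₁ : Cardinal.{u}).ord = ω₁ by simp] at this

theorem ev_fun_omega1 {f : Ordinal.{u} → Ordinal.{u}}
    (hf : ∀ ε < ω₁, f ε < ω₁) : ∀ᶠ δ in CF (ℵ₁ : Cardinal.{u}), ∀ ε < δ, f ε < δ := by
  refine ev_fun ?_
  rwa [show (ℵ₁ : Cardinal.{u}).ord = ω₁ by simp]

theorem ev_gt_omega1 {a : Ordinal.{u}} (ha : a < ω₁) : ∀ᶠ δ in CF (ℵ₁ : Cardinal.{u}), a < δ := by
  refine ev_gt ?_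
  rwa [show (ℵ₁ : Cardinal.{u}).ord = ω₁ by simp]

/-- choice of a bounded function -/
theorem choose_omega1 {R : Ordinal.{u} → Ordinal.{u} → Prop}
    (h : ∀ ε < (ω₁ : Ordinal.{u}), ∃ b < ω₁, R ε b) :
    ∃ f : Ordinal.{u} → Ordinal.{u}, ∀ ε < ω₁, f ε < ω₁ ∧ R ε (f ε) := by
  have h' : ∀ ε, ∃ b, ε < ω₁ → b < ω₁ ∧ R ε b := by
    intro ε
    by_cases hε : ε < ω₁
    · obtain ⟨b, hb⟩ := h ε hε
      exact ⟨b, fun _ => hb⟩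
    · exact ⟨0, fun h => absurd h hε⟩
  choose f hf using h'
  exact ⟨f, hf⟩

/-- Goodness at a single point `ζ`. -/
theorem good_point {γ ζ : Ordinal.{u}} {c : Set Ordinal.{u}} (hc : ∀ a < γ, ∃ b ∈ c, a < b)
    (hζ : ζ < γ) (hE : ∃ e, Norm e ζ) :
    ∀ᶠ δ in CF (ℵ₁ : Cardinal.{u}), eN ζ δ ∈ acc c ∨ ∀ c₀ ∈ c, eN ζ δ ≤ c₀ → ζ ≤ c₀ := by
  have he := eN_norm hE
  by_cases hA : ∀ a < ζ, ∃ c₀ ∈ c, a < c₀ ∧ c₀ < ζ
  · obtain ⟨f, hf⟩ := choose_omega1 (R := fun ε b => ∃ c₀ ∈ c, eN ζ ε < c₀ ∧ c₀ < eN ζ b) (by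
      intro ε hε
      obtain ⟨c₀, h0, h1, h2⟩ := hA _ (he.lt ε hε)
      obtain ⟨b, hb, hb'⟩ := he.cof c₀ h2
      exact ⟨b, hb, c₀, h0, h1, hb'⟩)
    filter_upwards [ev_fun_omega1 (fun ε hε => (hf ε hε).1), ev_lt_omega1,
      ev_limit aleph0_lt_aleph_one.le, ev_pos _] with δ h1 h2 h3 h4
    left
    refine ⟨?_, ?_, ?_⟩
    · exact zero_le.trans_lt (he.mono 0 δ h4 h2)
    · intro a ha
      obtain ⟨ε, hε, haε⟩ := he.cont δ h2 h4 h3 a ha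
      obtain ⟨c₀, h5, h6, h7⟩ := (hf ε (hε.trans h2)).2
      exact ⟨c₀, h5, haε.trans h6, h7.trans (he.mono _ _ (h1 ε hε) h2)⟩
    · exact hc _ ((he.lt δ h2).trans hζ)
  · push Not at hA
    obtain ⟨a, ha, ha'⟩ := hA
    obtain ⟨ε, hε, haε⟩ := he.cof a ha
    filter_upwards [ev_gt_omega1 hε, ev_lt_omega1] with δ h1 h2
    right
    intro c₀ h3 h4
    exact ha' c₀ h3 ((haε.trans (he.mono _ _ h1 h2)).trans_le h4)

section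

variable {κ : Cardinal.{u}} (hκ : κ.IsRegular) (h2 : ℵ₁ < κ)
  {U : Type u} {j : Ordinal.{u} → U} {ev : U → Ordinal.{u} → U}

/-- `x` is a bad set of ordinals with `x ∩ ω₁ = δ` and `sup x = β`. -/
structure Bad (κ : Cardinal.{u}) (𝒞 : Ordinal.{u} → Set (Set Ordinal.{u})) (x : Set Ordinal.{u})
    (δ β : Ordinal.{u}) : Prop where
  tr : ∀ ξ < ω₁, ξ ∈ x ↔ ξ < δ
  δlt : δ < ω₁
  βlt : β < κ.ord
  lt : ∀ a ∈ x, a < β
  cof : ∀ a < β, ∃ b ∈ x, a < b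
  pos : 0 < β
  bad : ∀ C ∈ 𝒞 β, ¬ Good δ x C

include hκ h2

theorem aStar (hSSR : SemistationaryReflection.{u}) (hc : Code κ j ev)
    {𝒞 : Ordinal.{u} → Set (Set Ordinal.{u})} (h𝒞 : Coh κ 𝒞) :
    ∃ F : ℕ → List U → U, ∀ M : Set U, M.Countable → Cl F M →
      ∀ δ β, ¬ Bad κ 𝒞 (oM κ j M) δ β := by
  by_contra hcon
  push Not at hcon
  have hi : InjOn j (Iio ω₁) := hc.inj.mono (Iio_subset_Iio (omega1_lt h2).le)
  have hωκ := omega1_lt h2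
  obtain ⟨V, hV1, hV2, hV3, hV4⟩ := reflect hSSR j hi
    {M | ∃ x δ β, x ⊆ oM κ j M ∧ (∀ ξ < ω₁, ξ ∈ oM κ j M → ξ ∈ x) ∧ Bad κ 𝒞 x δ β} (by
      rintro M ⟨x, δ, β, h3, h4, h5⟩ y _ hxy htr
      refine ⟨x, δ, β, fun a ha => ⟨(h3 ha).1, hxy (h3 ha).2⟩, fun ξ hξ hξ' => ?_, h5⟩
      exact h4 ξ hξ ⟨hξ'.1, htr ξ hξ hξ'.2⟩) (by
      intro F
      obtain ⟨M, h3, h4, δ, β, h5⟩ := hcon F
      exact ⟨M, ⟨_, δ, β, Subset.rfl, fun _ _ h => h, h5⟩, h3, h4⟩)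
  -- `Rδ x β`
  let R : Ordinal.{u} → Ordinal.{u} → Ordinal.{u} → Prop := fun β' δ β =>
    (∃ x, x ⊆ oM κ j (V δ) ∧ Bad κ 𝒞 x δ β) ∧ β ≤ β' ∧ ∀ a ∈ oM κ j (V δ), a < β' → a < β
  have hR1 : ∃ᶠ δ in CF ℵ₁, ∃ x β, x ⊆ oM κ j (V δ) ∧ Bad κ 𝒞 x δ β := by
    refine (hV4.and_eventually ev_lt_omega1).mono ?_
    rintro δ ⟨⟨⟨x, δ', β, h3, h4, h5⟩, h6⟩, h7⟩
    have heq : δ' = δ := by
      have h8 : ∀ ξ < ω₁, ξ < δ' ↔ ξ < δ := by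
        intro ξ hξ
        rw [← h5.tr ξ hξ, ← h6 ξ hξ]
        exact ⟨fun h => (h3 h).2, fun h => h4 ξ hξ ⟨hξ.trans hωκ, h⟩⟩
      rcases lt_trichotomy δ' δ with h | h | h
      · exact absurd ((h8 δ' h5.δlt).2 h) (lt_irrefl _)
      · exact h
      · exact absurd ((h8 δ h7).1 h) (lt_irrefl _)
    subst heq
    exact ⟨x, β, h3, h5⟩
  have hR2 : ∃ β' ≤ κ.ord, ∃ᶠ δ in CF ℵ₁, ∃ β, R β' δ β := by
    by_cases hcase : ∃ᶠ δ in CF ℵ₁, ∃ β, R κ.ord δ β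
    · exact ⟨κ.ord, le_rfl, hcase⟩
    · have h3 : ∃ᶠ δ in CF ℵ₁, ∃ β', β' ∈ oM κ j (V δ) ∧ ∃ β, R β' δ β := by
        refine (hR1.and_eventually (not_frequently.1 hcase)).mono ?_
        rintro δ ⟨⟨x, β, h4, h5⟩, h6⟩
        have h7 : ∃ a, a ∈ oM κ j (V δ) ∧ β ≤ a := by
          by_contra hcon'
          push Not at hcon'
          exact h6 ⟨β, ⟨x, h4, h5⟩, h5.βlt.le, fun a ha _ => hcon' a ha⟩
        obtain ⟨m, ⟨hm1, hm2⟩, hm3⟩ := WellFounded.has_min (wellFounded_lt (α := Ordinal.{u}))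
          {a | a ∈ oM κ j (V δ) ∧ β ≤ a} h7
        refine ⟨m, hm1, β, ⟨x, h4, h5⟩, hm2, fun a ha ham => ?_⟩
        by_contra hβa
        exact hm3 a ⟨ha, not_lt.1 hβa⟩ ham
      have h4 : ∃ᶠ δ in CF ℵ₁, ∃ ε, ε < δ ∧ ∃ β', β' ∈ oM κ j (V ε) ∧ ∃ β, R β' δ β := by
        refine (h3.and_eventually (ev_limit aleph0_lt_aleph_one.le)).mono ?_
        rintro δ ⟨⟨β', h4, h5⟩, h6⟩
        obtain ⟨ε, hε, h7⟩ := hV3 δ h6 _ h4.2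
        exact ⟨ε, hε, β', ⟨h4.1, h7⟩, h5⟩
      have h5 : ∀ δ, ∃ ε, (∃ ε, ε < δ ∧ ∃ β', β' ∈ oM κ j (V ε) ∧ ∃ β, R β' δ β) →
          (ε < δ ∧ ∃ β', β' ∈ oM κ j (V ε) ∧ ∃ β, R β' δ β) := by
        intro δ
        by_cases h : ∃ ε, ε < δ ∧ ∃ β', β' ∈ oM κ j (V ε) ∧ ∃ β, R β' δ β
        · obtain ⟨ε, hε⟩ := h
          exact ⟨ε, fun _ => hε⟩
        · exact ⟨0, fun h' => absurd h' h⟩
      choose r hr using h5
      have h6 : ∃ᶠ δ in CF ℵ₁, (∃ β', β' ∈ oM κ j (V (r δ)) ∧ ∃ β, R β' δ β) ∧ r δ < δ :=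
        h4.mono fun δ hδ => ⟨(hr δ hδ).2, (hr δ hδ).1⟩
      obtain ⟨ε, hε, h7⟩ := fodor isRegular_aleph_one h6
      have hε' : ε < ω₁ := by simpa using hε
      have h8 : ∃ᶠ δ in CF ℵ₁, ∃ β' : oM κ j (V ε), ∃ β, R β'.1 δ β := by
        refine h7.mono ?_
        rintro δ ⟨⟨β', h8, h9⟩, h10⟩
        rw [h10] at h8
        exact ⟨⟨β', h8⟩, h9⟩
      have hcnt : (oM κ j (V ε)).Countable := by
        refine countable_of_injective_of_countable_image (f := j)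
            (hc.inj.mono fun ξ hξ => hξ.1) ?_
        refine (hV1 ε hε').mono ?_
        rintro _ ⟨a, ha, rfl⟩
        exact ha.2
      obtain ⟨⟨β', hβ'⟩, h9⟩ := freq_all isRegular_aleph_one (by
        refine (Cardinal.lift_le.2 (le_aleph0_iff_set_countable.2 hcnt)).trans_lt ?_
        rw [Cardinal.lift_aleph0, Cardinal.aleph0_lt_lift]
        exact aleph0_lt_aleph_one) h8
      exact ⟨β', hβ'.1.le, h9⟩
  obtain ⟨β', hβ', hfr⟩ := hR2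
  -- the union and its supremum
  let Y : Set Ordinal.{u} := {a | a < β' ∧ ∃ δ < ω₁, a ∈ oM κ j (V δ)}
  have hYnomax : ∀ a ∈ Y, ∃ b ∈ Y, a < b := by
    rintro a ⟨ha, δ, hδ, haδ⟩
    obtain ⟨δ', ⟨β, ⟨x, h3, h4⟩, h5, h6⟩, h7, h8⟩ :=
      (hfr.and_eventually ((ev_gt_omega1 hδ).and ev_lt_omega1)).exists
    have h9 : a < β := h6 a ⟨haδ.1, hV2 _ _ h7.le haδ.2⟩ ha
    obtain ⟨b, hb, hab⟩ := h4.cof a h9
    exact ⟨b, ⟨(h4.lt b hb).trans_le h5, δ', h8, h3 hb⟩, hab⟩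
  have hYbdd : ∃ g < κ.ord, ∀ a ∈ Y, a < g := by
    have h3 : ∀ δ : Iio (ω₁ : Ordinal.{u}), ∃ g < κ.ord, ∀ a ∈ oM κ j (V δ.1), a < g := by
      intro δ
      have hcnt : (oM κ j (V δ.1)).Countable := by
        refine countable_of_injective_of_countable_image (f := j)
            (hc.inj.mono fun ξ hξ => hξ.1) ?_
        refine (hV1 δ.1 δ.2).mono ?_
        rintro _ ⟨a, ha, rfl⟩
        exact ha.2
      obtain ⟨g, hg, hg'⟩ := bound hκ (ι := oM κ j (V δ.1)) (by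
        refine (Cardinal.lift_le.2 (le_aleph0_iff_set_countable.2 hcnt)).trans_lt ?_
        rw [Cardinal.lift_aleph0, Cardinal.aleph0_lt_lift]
        exact aleph0_lt_aleph_one.trans h2) (fun a => a.1) (fun a => a.2.1)
      exact ⟨g, hg, fun a ha => hg' ⟨a, ha⟩⟩
    choose g hg hg' using h3
    obtain ⟨b, hb, hb'⟩ := bound hκ (card_Iio_lt (omega1_lt h2)) g hg
    refine ⟨b, hb, ?_⟩
    rintro a ⟨_, δ, hδ, ha⟩
    exact (hg' ⟨δ, hδ⟩ a ha).trans (hb' _)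
  obtain ⟨g, hg, hg'⟩ := hYbdd
  obtain ⟨γ, hγ, hγmin⟩ := WellFounded.has_min (wellFounded_lt (α := Ordinal.{u}))
    {g | ∀ a ∈ Y, a < g} ⟨g, hg'⟩
  have hγκ : γ < κ.ord := (not_lt.1 (hγmin g hg')).trans_lt hg
  have hγcof : ∀ a < γ, ∃ b ∈ Y, a < b := by
    intro a ha
    have h3 : ¬ ∀ b ∈ Y, b < a := fun h => hγmin a h ha
    push Not at h3
    obtain ⟨b, hb, hab⟩ := h3
    obtain ⟨b', hb', hbb'⟩ := hYnomax b hb
    exact ⟨b', hb', hab.trans_lt hbb'⟩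
  have hsub : ∀ δ β, δ < ω₁ → R β' δ β → β ≤ γ := by
    rintro δ β hδ ⟨⟨x, h3, h4⟩, h5, h6⟩
    by_contra hcon'
    obtain ⟨b, hb, hab⟩ := h4.cof γ (not_le.1 hcon')
    exact absurd (hγ b ⟨(h4.lt b hb).trans_le h5, δ, hδ, h3 hb⟩) hab.not_gt
  have hγ0 : 0 < γ := by
    obtain ⟨δ, ⟨β, hRβ⟩, h3⟩ := (hfr.and_eventually ev_lt_omega1).exists
    obtain ⟨x, _, h4⟩ := hRβ.1
    exact h4.pos.trans_le (hsub δ β h3 hRβ)
  have hγlim : ∀ a < γ, a + 1 < γ := limit_of_unb (Q := fun b => b ∈ Y) (fun a ha => by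
    obtain ⟨b, hb, hab⟩ := hγcof a ha
    exact ⟨b, hb, hab, hγ b hb⟩)
  obtain ⟨c, hcC⟩ := h𝒞.ne γ hγκ hγ0 hγlim
  have hcc := h𝒞.club γ hγκ hγ0 hγlim c hcC
  -- goodness of `c` at club many `δ`
  have hgood : ∀ᶠ δ in CF ℵ₁, ∀ ζ ∈ oM κ j (V δ), ζ < γ → (∃ e, Norm e ζ) →
      (eN ζ δ ∈ acc c ∨ ∀ c₀ ∈ c, eN ζ δ ≤ c₀ → ζ ≤ c₀) := by
    have h3 : ∀ ε < (ℵ₁ : Cardinal.{u}).ord, ∀ᶠ δ in CF (ℵ₁ : Cardinal.{u}), ∀ ζ : oM κ j (V ε),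
        ζ.1 < γ → (∃ e, Norm e ζ.1) →
        (eN ζ.1 δ ∈ acc c ∨ ∀ c₀ ∈ c, eN ζ.1 δ ≤ c₀ → ζ.1 ≤ c₀) := by
      intro ε hε
      have hε' : ε < ω₁ := by simpa using hε
      have hcnt : (oM κ j (V ε)).Countable := by
        refine countable_of_injective_of_countable_image (f := j)
            (hc.inj.mono fun ξ hξ => hξ.1) ?_
        refine (hV1 ε hε').mono ?_
        rintro _ ⟨a, ha, rfl⟩
        exact ha.2
      refine ev_all isRegular_aleph_one ?_ ?_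
      · refine (Cardinal.lift_le.2 (le_aleph0_iff_set_countable.2 hcnt)).trans_lt ?_
        rw [Cardinal.lift_aleph0, Cardinal.aleph0_lt_lift]
        exact aleph0_lt_aleph_one
      · intro ζ
        by_cases hζ : ζ.1 < γ ∧ ∃ e, Norm e ζ.1
        · exact (good_point hcc.2.1 hζ.1 hζ.2).mono fun δ h _ _ => h
        · exact Eventually.of_forall fun δ h h' => absurd ⟨h, h'⟩ hζ
    filter_upwards [ev_diag isRegular_aleph_one h3, ev_limit aleph0_lt_aleph_one.le] with δ h4 h5 ζ hζ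
    obtain ⟨ε, hε, h6⟩ := hV3 δ h5 _ hζ.2
    exact h4 ε hε ⟨ζ, hζ.1, h6⟩
  -- `β = γ` or `β ∈ acc c` at stationary many `δ`
  have hfr2 : ∃ᶠ δ in CF ℵ₁, ∃ β, R β' δ β ∧ (β = γ ∨ β ∈ acc c) := by
    by_cases hcase : ∃ δ₀ < ω₁, ∃ β, R β' δ₀ β ∧ β = γ
    · obtain ⟨δ₀, hδ₀, β, hRβ, rfl⟩ := hcase
      refine (hfr.and_eventually ((ev_gt_omega1 hδ₀).and ev_lt_omega1)).mono ?_
      rintro δ ⟨⟨β₁, h3⟩, h4, h5⟩
      refine ⟨β₁, h3, Or.inl (le_antisymm (hsub δ β₁ h5 h3) ?_)⟩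
      by_contra hcon'
      obtain ⟨x, h6, h7⟩ := hRβ.1
      obtain ⟨b, hb, hab⟩ := h7.cof β₁ (not_le.1 hcon')
      have h8 : b < β₁ := h3.2.2 b ⟨(h6 hb).1, hV2 _ _ h4.le (h6 hb).2⟩
        ((h7.lt b hb).trans_le hRβ.2.1)
      exact absurd h8 hab.not_gt
    · push Not at hcase
      have hlt : ∀ δ β, δ < ω₁ → R β' δ β → β < γ := fun δ β h h' =>
        lt_of_le_of_ne (hsub δ β h h') (hcase δ h β h')
      obtain ⟨f, hf⟩ := choose_omega1 (R := fun ε ε' => ∃ c₀ ∈ c, (∀ a ∈ oM κ j (V ε), a < β' → a < c₀) ∧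
          ∃ b ∈ oM κ j (V ε'), b < β' ∧ c₀ < b) (by
        intro ε hε
        obtain ⟨δ, ⟨β, h3⟩, h4, h5⟩ :=
          (hfr.and_eventually ((ev_gt_omega1 hε).and ev_lt_omega1)).exists
        obtain ⟨c₀, h6, h7⟩ := hcc.2.1 β (hlt δ β h5 h3)
        obtain ⟨b, ⟨h8, ε', hε', h9⟩, h10⟩ := hγcof c₀ (hcc.1 h6)
        refine ⟨ε', hε', c₀, h6, fun a ha haβ => ?_, b, h9, h8, h10⟩
        exact (h3.2.2 a ⟨ha.1, hV2 _ _ h4.le ha.2⟩ haβ).trans h7)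
      refine (hfr.and_eventually ((ev_fun_omega1 fun ε hε => (hf ε hε).1).and
        (ev_lt_omega1.and (ev_limit aleph0_lt_aleph_one.le)))).mono ?_
      rintro δ ⟨⟨β, h3⟩, h4, h5, h6⟩
      obtain ⟨x, h7, h8⟩ := h3.1
      refine ⟨β, h3, Or.inr ⟨h8.pos, fun a ha => ?_, hcc.2.1 β (hlt δ β h5 h3)⟩⟩
      obtain ⟨b, hb, hab⟩ := h8.cof a ha
      obtain ⟨ε, hε, h9⟩ := hV3 δ h6 _ (h7 hb).2
      obtain ⟨c₀, h10, h11, b', h12, h13, h14⟩ := (hf ε (hε.trans h5)).2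
      refine ⟨c₀, h10, hab.trans (h11 b ⟨(h7 hb).1, h9⟩ ((h8.lt b hb).trans_le h3.2.1)), ?_⟩
      exact h14.trans (h3.2.2 b' ⟨h12.1, hV2 _ _ (h4 ε hε).le h12.2⟩ h13)
  obtain ⟨δ, ⟨β, hRβ, h3⟩, h4, h5⟩ := (hfr2.and_eventually (hgood.and ev_lt_omega1)).exists
  obtain ⟨x, h6, h7⟩ := hRβ.1
  have hβγ : β ≤ γ := hsub δ β h5 hRβ
  have hmem : c ∩ Iio β ∈ 𝒞 β := by
    rcases h3 with rfl | h3
    · rw [inter_eq_self_of_subset_left hcc.1]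
      exact hcC
    · exact h𝒞.coh γ hγκ hγ0 hγlim c hcC β h3
  have hunb : ∀ a < β, ∃ c₀ ∈ c, a < c₀ ∧ c₀ < β := by
    intro a ha
    rcases h3 with rfl | h3
    · obtain ⟨c₀, h8, h9⟩ := hcc.2.1 a ha
      exact ⟨c₀, h8, h9, hcc.1 h8⟩
    · exact h3.2.1 a ha
  refine h7.bad _ hmem ?_
  intro ζ hζ hE
  have hζβ := h7.lt ζ hζ
  rcases h4 ζ (h6 hζ) (hζβ.trans_le hβγ) hE with h8 | h8
  · left
    have h9 : eN ζ δ < ζ := (eN_norm hE).lt δ h5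
    refine ⟨h8.1, fun a ha => ?_, ?_⟩
    · obtain ⟨c₀, h10, h11, h12⟩ := h8.2.1 a ha
      exact ⟨c₀, ⟨h10, h12.trans (h9.trans hζβ)⟩, h11, h12⟩
    · obtain ⟨c₀, h10, h11, h12⟩ := hunb _ (h9.trans hζβ)
      exact ⟨c₀, ⟨h10, h12⟩, h11⟩
  · right
    intro c₀ h9 h10
    exact h8 c₀ h9.1 h10

end

end Pool.Agent.H646.SSR
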