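import Mathlib

/-!
# The club filter on a regular uncountable cardinal, via closure points of functions
-/

namespace Pool.Agent.H646.SSR

open Cardinal Ordinal Set Filter Order

universe u v

theorem bound {θ : Cardinal.{u}} (hθ : θ.IsRegular) {ι : Type v}
    (hι : Cardinal.lift.{u} #ι < Cardinal.lift.{v} θ) (f : ι → Ordinal.{u})
    (hf : ∀ i, f i < θ.ord) : ∃ b < θ.ord, ∀ i, f i < b := by
  have h1 : Small.{u} ι := by
    have h2 : Cardinal.lift.{u} #ι ≤ Cardinal.lift.{v} #(Quotient.out θ) := by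
      rw [Cardinal.mk_out]
      exact hι.le
    obtain ⟨g⟩ := Cardinal.lift_mk_le'.1 h2
    exact small_of_injective g.injective
  refine ⟨⨆ i, f i + 1, lift_iSup_add_one_lt_of_lt_cof ?_ hf, fun i => ?_⟩
  · rw [← Ordinal.lift_cof, hθ.cof_ord]
    exact hι
  · exact (lt_add_one _).trans_le (le_ciSup (Ordinal.bddAbove_of_small) i)

/-- Nonzero closure points of `f` below `θ`. -/
def Pts (θ : Cardinal.{u}) (f : Ordinal.{u} → Ordinal.{u}) : Set Ordinal.{u} :=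
  {δ | 0 < δ ∧ δ < θ.ord ∧ ∀ ε < δ, f ε < δ}

/-- The filter generated by the sets of closure points of functions from `θ` to `θ`. -/
def CF (θ : Cardinal.{u}) : Filter Ordinal.{u} where
  sets := {P | ∃ f : Ordinal.{u} → Ordinal.{u}, (∀ ε < θ.ord, f ε < θ.ord) ∧ Pts θ f ⊆ P}
  univ_sets := ⟨id, fun _ h => h, subset_univ _⟩
  sets_of_superset := by
    rintro x y ⟨f, hf, hx⟩ hxy
    exact ⟨f, hf, hx.trans hxy⟩
  inter_sets := by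
    rintro x y ⟨f, hf, hx⟩ ⟨g, hg, hy⟩
    refine ⟨fun ε => max (f ε) (g ε), fun ε hε => max_lt (hf ε hε) (hg ε hε), ?_⟩
    rintro δ ⟨h0, h1, h2⟩
    exact ⟨hx ⟨h0, h1, fun ε hε => (le_max_left _ _).trans_lt (h2 ε hε)⟩,
      hy ⟨h0, h1, fun ε hε => (le_max_right _ _).trans_lt (h2 ε hε)⟩⟩

theorem ev_iff {θ : Cardinal.{u}} {P : Ordinal.{u} → Prop} :
    (∀ᶠ δ in CF θ, P δ) ↔ ∃ f : Ordinal.{u} → Ordinal.{u}, (∀ ε < θ.ord, f ε < θ.ord) ∧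
      ∀ δ, 0 < δ → δ < θ.ord → (∀ ε < δ, f ε < δ) → P δ := by
  constructor
  · rintro ⟨f, hf, h⟩
    exact ⟨f, hf, fun δ h0 h1 h2 => h ⟨h0, h1, h2⟩⟩
  · rintro ⟨f, hf, h⟩
    exact ⟨f, hf, fun δ hδ => h δ hδ.1 hδ.2.1 hδ.2.2⟩

theorem ev_lt (θ : Cardinal.{u}) : ∀ᶠ δ in CF θ, δ < θ.ord :=
  ev_iff.2 ⟨id, fun _ h => h, fun _ _ h _ => h⟩

theorem ev_pos (θ : Cardinal.{u}) : ∀ᶠ δ in CF θ, 0 < δ :=
  ev_iff.2 ⟨id, fun _ h => h, fun _ h _ _ => h⟩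

theorem ev_gt {θ : Cardinal.{u}} {a : Ordinal.{u}} (ha : a < θ.ord) : ∀ᶠ δ in CF θ, a < δ :=
  ev_iff.2 ⟨fun _ => a, fun _ _ => ha, fun _ h _ h2 => h2 0 h⟩

theorem ev_fun {θ : Cardinal.{u}} {f : Ordinal.{u} → Ordinal.{u}}
    (hf : ∀ ε < θ.ord, f ε < θ.ord) : ∀ᶠ δ in CF θ, ∀ ε < δ, f ε < δ :=
  ev_iff.2 ⟨f, hf, fun _ _ _ h2 => h2⟩

theorem add_one_lt_ord {θ : Cardinal.{u}} (hθ : ℵ₀ ≤ θ) {a : Ordinal.{u}} (ha : a < θ.ord) :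
    a + 1 < θ.ord := (isSuccLimit_ord hθ).add_one_lt ha

theorem ev_limit {θ : Cardinal.{u}} (hθ : ℵ₀ ≤ θ) : ∀ᶠ δ in CF θ, ∀ ε < δ, ε + 1 < δ :=
  ev_fun (fun _ h => add_one_lt_ord hθ h)

theorem ev_all {θ : Cardinal.{u}} (hθ : θ.IsRegular) {ι : Type v}
    (hι : Cardinal.lift.{u} #ι < Cardinal.lift.{v} θ) {P : ι → Ordinal.{u} → Prop}
    (h : ∀ i, ∀ᶠ δ in CF θ, P i δ) : ∀ᶠ δ in CF θ, ∀ i, P i δ := by
  simp only [ev_iff] at h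
  choose f hf h using h
  have hb : ∀ ε, ∃ b, ε < θ.ord → b < θ.ord ∧ ∀ i, f i ε < b := by
    intro ε
    by_cases hε : ε < θ.ord
    · obtain ⟨b, hb, hb'⟩ := bound hθ hι (fun i => f i ε) (fun i => hf i ε hε)
      exact ⟨b, fun _ => ⟨hb, hb'⟩⟩
    · exact ⟨0, fun h => absurd h hε⟩
  choose g hg using hb
  rw [ev_iff]
  refine ⟨g, fun ε hε => (hg ε hε).1, fun δ h0 h1 h2 i => h i δ h0 h1 fun ε hε => ?_⟩
  exact ((hg ε (hε.trans h1)).2 i).trans (h2 ε hε)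

theorem card_Iio_lt {θ : Cardinal.{u}} {ε : Ordinal.{u}} (hε : ε < θ.ord) :
    Cardinal.lift.{u} #(Iio ε) < Cardinal.lift.{u+1} θ := by
  rw [Cardinal.mk_Iio_ordinal, Cardinal.lift_lift]
  have := Cardinal.lt_ord.1 hε
  simpa only [Cardinal.lift_lt] using this

theorem ev_diag {θ : Cardinal.{u}} (hθ : θ.IsRegular) {P : Ordinal.{u} → Ordinal.{u} → Prop}
    (h : ∀ ε < θ.ord, ∀ᶠ δ in CF θ, P ε δ) : ∀ᶠ δ in CF θ, ∀ ε < δ, P ε δ := by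
  simp only [ev_iff] at h
  have h' : ∀ ε, ∃ f : Ordinal.{u} → Ordinal.{u}, ε < θ.ord → ((∀ ε < θ.ord, f ε < θ.ord) ∧
      ∀ δ, 0 < δ → δ < θ.ord → (∀ ε < δ, f ε < δ) → P ε δ) := by
    intro ε
    by_cases hε : ε < θ.ord
    · obtain ⟨f, hf⟩ := h ε hε
      exact ⟨f, fun _ => hf⟩
    · exact ⟨id, fun h => absurd h hε⟩
  choose f hf using h'
  have hb : ∀ ε, ∃ b, ε < θ.ord → b < θ.ord ∧ ∀ i ≤ ε, ∀ j ≤ ε, f i j < b := by
    intro ε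
    by_cases hε : ε < θ.ord
    · have hε1 : ε + 1 < θ.ord := add_one_lt_ord hθ.aleph0_le hε
      have hcard : Cardinal.lift.{u} #(Iio (ε + 1) × Iio (ε + 1)) < Cardinal.lift.{u+1} θ := by
        rw [mk_prod]
        simp only [Cardinal.lift_id]
        rw [Cardinal.lift_mul]
        exact Cardinal.mul_lt_of_lt (by simpa using hθ.aleph0_le) (card_Iio_lt hε1)
          (card_Iio_lt hε1)
      obtain ⟨b, hb, hb'⟩ := bound hθ hcard (fun i => f i.1 i.2)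
        (fun i => (hf i.1 (i.1.2.trans hε1)).1 _ (i.2.2.trans hε1))
      refine ⟨b, fun _ => ⟨hb, fun i hi j hj => ?_⟩⟩
      exact hb' (⟨i, lt_add_one_iff.2 hi⟩, ⟨j, lt_add_one_iff.2 hj⟩)
    · exact ⟨0, fun h => absurd h hε⟩
  choose g hg using hb
  rw [ev_iff]
  refine ⟨g, fun ε hε => (hg ε hε).1, fun δ h0 h1 h2 ε hε => ?_⟩
  refine (hf ε (hε.trans h1)).2 δ h0 h1 fun j hj => ?_
  have hm : max ε j < δ := max_lt hε hj
  exact ((hg _ (hm.trans h1)).2 ε (le_max_left _ _) j (le_max_right _ _)).trans (h2 _ hm)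

/-- Fodor's lemma. -/
theorem fodor {θ : Cardinal.{u}} (hθ : θ.IsRegular) {Q : Ordinal.{u} → Prop}
    {r : Ordinal.{u} → Ordinal.{u}} (h : ∃ᶠ δ in CF θ, Q δ ∧ r δ < δ) :
    ∃ ε < θ.ord, ∃ᶠ δ in CF θ, Q δ ∧ r δ = ε := by
  by_contra hcon
  have h1 : ∀ ε < θ.ord, ∀ᶠ δ in CF θ, ¬ (Q δ ∧ r δ = ε) := fun ε hε =>
    not_frequently.1 fun h => hcon ⟨ε, hε, h⟩
  have h2 := ev_diag hθ h1
  obtain ⟨δ, ⟨hQ, hr⟩, h3⟩ := (h.and_eventually h2).exists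
  exact h3 _ hr ⟨hQ, rfl⟩

theorem freq_all {θ : Cardinal.{u}} (hθ : θ.IsRegular) {ι : Type v}
    (hι : Cardinal.lift.{u} #ι < Cardinal.lift.{v} θ) {P : ι → Ordinal.{u} → Prop}
    (h : ∃ᶠ δ in CF θ, ∃ i, P i δ) : ∃ i, ∃ᶠ δ in CF θ, P i δ := by
  by_contra hcon
  have h2 := ev_all hθ hι (P := fun i δ => ¬ P i δ) (fun i => not_frequently.1 fun h => hcon ⟨i, h⟩)
  obtain ⟨δ, ⟨i, hi⟩, h3⟩ := (h.and_eventually h2).exists
  exact h3 i hi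

/-- A frequent property holds at arbitrarily large ordinals below `θ`. -/
theorem freq_unbounded {θ : Cardinal.{u}} {Q : Ordinal.{u} → Prop}
    (h : ∃ᶠ δ in CF θ, Q δ) {a : Ordinal.{u}} (ha : a < θ.ord) :
    ∃ δ, a < δ ∧ δ < θ.ord ∧ Q δ := by
  obtain ⟨δ, hQ, h1, h2⟩ := (h.and_eventually ((ev_gt ha).and (ev_lt θ))).exists
  exact ⟨δ, h1, h2, hQ⟩

/-- Eventually `δ` is a limit of members of an unbounded set. -/
theorem ev_unbounded {θ : Cardinal.{u}} {Q : Ordinal.{u} → Prop}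
    (h : ∀ a < θ.ord, ∃ δ, a < δ ∧ δ < θ.ord ∧ Q δ) :
    ∀ᶠ δ in CF θ, ∀ a < δ, ∃ ε, a < ε ∧ ε < δ ∧ Q ε := by
  have h' : ∀ a, ∃ δ, a < θ.ord → (a < δ ∧ δ < θ.ord ∧ Q δ) := by
    intro a
    by_cases ha : a < θ.ord
    · obtain ⟨δ, hδ⟩ := h a ha
      exact ⟨δ, fun _ => hδ⟩
    · exact ⟨0, fun h => absurd h ha⟩
  choose f hf using h'
  rw [ev_iff]
  exact ⟨f, fun ε hε => (hf ε hε).2.1, fun δ h0 h1 h2 a ha =>
    ⟨f a, (hf a (ha.trans h1)).1, h2 a ha, (hf a (ha.trans h1)).2.2⟩⟩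

end Pool.Agent.H646.SSR
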