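import Mathlib

/-!
# Semistationary reflection and the square principle `□(κ, ω₁)`: the definitions

All objects are sets of ordinals of a fixed universe.  A cardinal `κ` is identified with its
initial ordinal `κ.ord`, and an ordinal `α` with the set `Iio α` of its predecessors.
-/

namespace Pool.Agent.H646.SSR

open Cardinal Ordinal Set Order

universe u

/-- `acc C`: the limit points of the set of ordinals `C` which lie below `sup C`. -/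
def acc (C : Set Ordinal.{u}) : Set Ordinal.{u} :=
  {β | 0 < β ∧ (∀ a < β, ∃ c ∈ C, a < c ∧ c < β) ∧ ∃ c ∈ C, β < c}

/-- `C` is a club subset of the (limit) ordinal `α`. -/
def IsClubIn (C : Set Ordinal.{u}) (α : Ordinal.{u}) : Prop :=
  C ⊆ Iio α ∧ (∀ a < α, ∃ c ∈ C, a < c) ∧ acc C ⊆ C

/-- `𝒞` is a `□(κ, ω₁)`-sequence: to each limit ordinal `α < κ` it assigns a nonempty countable
set `𝒞 α` of clubs of `α`, coherently, and it has no thread. -/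
def IsSquareSeq (κ : Cardinal.{u}) (𝒞 : Ordinal.{u} → Set (Set Ordinal.{u})) : Prop :=
  (∀ α < κ.ord, IsSuccLimit α →
    (𝒞 α).Nonempty ∧ (𝒞 α).Countable ∧ ∀ C ∈ 𝒞 α, IsClubIn C α) ∧
  (∀ α < κ.ord, IsSuccLimit α → ∀ C ∈ 𝒞 α, ∀ β ∈ acc C, C ∩ Iio β ∈ 𝒞 β) ∧
  ¬ ∃ D : Set Ordinal.{u}, IsClubIn D κ.ord ∧ ∀ α ∈ acc D, D ∩ Iio α ∈ 𝒞 α

/-- The principle `□(κ, ω₁)`. -/
def Square (κ : Cardinal.{u}) : Prop :=
  ∃ 𝒞 : Ordinal.{u} → Set (Set Ordinal.{u}), IsSquareSeq κ 𝒞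

/-- `[A]^{ℵ₀}`: the set of all countably infinite subsets of `A`. -/
def Ctbl (A : Set Ordinal.{u}) : Set (Set Ordinal.{u}) :=
  {x | x ⊆ A ∧ #x = ℵ₀}

/-- `D` is club in `[A]^{ℵ₀}`: cofinal under inclusion and closed under unions of countable
increasing chains. -/
def IsClubCtbl (A : Set Ordinal.{u}) (D : Set (Set Ordinal.{u})) : Prop :=
  D ⊆ Ctbl A ∧ (∀ x ∈ Ctbl A, ∃ y ∈ D, x ⊆ y) ∧
  ∀ f : ℕ → Set Ordinal.{u}, (∀ n, f n ∈ D) → (∀ n, f n ⊆ f (n + 1)) → (⋃ n, f n) ∈ D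

/-- `S` is stationary in `[A]^{ℵ₀}`: it meets every club of `[A]^{ℵ₀}`. -/
def IsStatCtbl (A : Set Ordinal.{u}) (S : Set (Set Ordinal.{u})) : Prop :=
  ∀ D : Set (Set Ordinal.{u}), IsClubCtbl A D → (S ∩ D).Nonempty

/-- Shelah's order: `x ⊑ y` iff `x ⊆ y` and `x ∩ ω₁ = y ∩ ω₁`. -/
def Sub (x y : Set Ordinal.{u}) : Prop :=
  x ⊆ y ∧ x ∩ Iio ω₁ = y ∩ Iio ω₁

/-- Semistationary reflection `SSR`: for every regular `μ ≥ ω₂` and every stationary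
`S ⊆ [μ]^{ℵ₀}` which is closed upward under `⊑` there is `W ⊆ μ` of cardinality `ℵ₁` with
`ω₁ ⊆ W` such that `S ∩ [W]^{ℵ₀}` is stationary in `[W]^{ℵ₀}`. -/
def SemistationaryReflection : Prop :=
  ∀ μ : Cardinal.{u}, μ.IsRegular → ℵ_ 2 ≤ μ →
    ∀ S ⊆ Ctbl (Iio μ.ord), IsStatCtbl (Iio μ.ord) S →
      (∀ x ∈ S, ∀ y ∈ Ctbl (Iio μ.ord), Sub x y → y ∈ S) →
      ∃ W ⊆ Iio μ.ord, #W = ℵ₁ ∧ Iio ω₁ ⊆ W ∧ IsStatCtbl W (S ∩ Ctbl W)

end Pool.Agent.H646.SSR
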