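import Pool.Agent.H646.SSR.AStar

/-!
# The tree argument
-/

namespace Pool.Agent.H646.SSR

open Cardinal Ordinal Set Filter Order

universe u v

/-- closure under a set of finitary functions -/
def ClS {U : Type u} (𝓕 : Set (List U → U)) (M : Set U) : Prop :=
  ∀ F ∈ 𝓕, ∀ l : List U, (∀ a ∈ l, a ∈ M) → F l ∈ M

theorem list_mem_iUnion {U : Type u} {N : ℕ → Set U} (hN : ∀ n, N n ⊆ N (n + 1)) (l : List U)
    (h : ∀ a ∈ l, a ∈ ⋃ n, N n) : ∃ n, ∀ a ∈ l, a ∈ N n := by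
  have hmono : Monotone N := monotone_nat_of_le_succ hN
  induction l with
  | nil => exact ⟨0, by simp⟩
  | cons x l ih =>
    obtain ⟨n, hn⟩ := ih (fun a ha => h a (List.mem_cons_of_mem _ ha))
    obtain ⟨m, hm⟩ := mem_iUnion.1 (h x List.mem_cons_self)
    refine ⟨max n m, fun a ha => ?_⟩
    rcases List.mem_cons.1 ha with rfl | ha
    · exact hmono (le_max_right _ _) hm
    · exact hmono (le_max_left _ _) (hn a ha)

theorem ClS_iUnion {U : Type u} {𝓕 : Set (List U → U)} {N : ℕ → Set U}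
    (hN : ∀ n, N n ⊆ N (n + 1)) (h : ∀ n, ClS 𝓕 (N n)) : ClS 𝓕 (⋃ n, N n) := by
  intro F hF l hl
  obtain ⟨n, hn⟩ := list_mem_iUnion hN l hl
  exact mem_iUnion.2 ⟨n, h n F hF l hn⟩

/-- the stages of the closure of the empty set under `𝓕` -/
def Nseq {U : Type u} (𝓕 : Set (List U → U)) : ℕ → Set U
  | 0 => ∅
  | n + 1 => Nseq 𝓕 n ∪ {u | ∃ F ∈ 𝓕, ∃ l : List U, (∀ a ∈ l, a ∈ Nseq 𝓕 n) ∧ F l = u}

theorem exists_closed {U : Type u} {𝓕 : Set (List U → U)} (h𝓕 : 𝓕.Countable) :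
    ∃ M : Set U, M.Countable ∧ ClS 𝓕 M := by
  have hN : ∀ n, Nseq 𝓕 n ⊆ Nseq 𝓕 (n + 1) := fun n => subset_union_left
  have hcnt : ∀ n, (Nseq 𝓕 n).Countable := by
    intro n
    induction n with
    | zero => exact countable_empty
    | succ n ih =>
      refine ih.union ?_
      have h1 := ih.to_subtype
      have h2 := h𝓕.to_subtype
      refine (countable_range (fun p : ↥𝓕 × List ↥(Nseq 𝓕 n) =>
        p.1.1 (p.2.map Subtype.val))).mono ?_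
      rintro u ⟨F, hF, l, hl, rfl⟩
      refine ⟨(⟨F, hF⟩, l.attach.map fun a => ⟨a.1, hl a.1 a.2⟩), ?_⟩
      simp [List.map_map, Function.comp_def]
  refine ⟨⋃ n, Nseq 𝓕 n, countable_iUnion hcnt, ?_⟩
  intro F hF l hl
  obtain ⟨n, hn⟩ := list_mem_iUnion hN l hl
  exact mem_iUnion.2 ⟨n + 1, Or.inr ⟨F, hF, l, hn, rfl⟩⟩

/-- `M[γ]` -/
def ext {U : Type u} (ev : U → Ordinal.{u} → U) (M : Set U) (γ : Ordinal.{u}) : Set U :=
  (fun h => ev h γ) '' M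

section

variable {κ : Cardinal.{u}} {U : Type u} {j : Ordinal.{u} → U} {ev : U → Ordinal.{u} → U}

/-- pointwise lifting of an operation -/
noncomputable def hat (hc : Code κ j ev) (F : List U → U) : List U → U := fun l =>
  (hc.surj (fun γ => F (l.map (fun h => ev h γ)))).choose

theorem hat_spec (hc : Code κ j ev) (F : List U → U) (l : List U) {γ : Ordinal.{u}}
    (hγ : γ < κ.ord) : ev (hat hc F l) γ = F (l.map (fun h => ev h γ)) :=
  (hc.surj (fun γ => F (l.map (fun h => ev h γ)))).choose_spec γ hγ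

theorem ext_closed (hc : Code κ j ev) {𝓕 : Set (List U → U)} (h𝓕 : ∀ F ∈ 𝓕, hat hc F ∈ 𝓕)
    {M : Set U} (hM : ClS 𝓕 M) {γ : Ordinal.{u}} (hγ : γ < κ.ord) : ClS 𝓕 (ext ev M γ) := by
  intro F hF l hl
  have h1 : ∃ l' : List U, (∀ a ∈ l', a ∈ M) ∧ l'.map (fun h => ev h γ) = l := by
    clear hF
    induction l with
    | nil => exact ⟨[], by simp, rfl⟩
    | cons x l ih =>
      obtain ⟨l', h1, h2⟩ := ih (fun a ha => hl a (List.mem_cons_of_mem _ ha))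
      obtain ⟨y, hy, hy'⟩ := hl x List.mem_cons_self
      refine ⟨y :: l', ?_, ?_⟩
      · intro a ha
        rcases List.mem_cons.1 ha with rfl | ha
        · exact hy
        · exact h1 a ha
      · rw [List.map_cons, h2]
        simp only at hy'
        rw [hy']
  obtain ⟨l', h2, rfl⟩ := h1
  exact ⟨hat hc F l', hM _ (h𝓕 F hF) l' h2, hat_spec hc F l' hγ⟩

/-- All the closure properties which the tree argument needs. -/
structure Sys (κ : Cardinal.{u}) (j : Ordinal.{u} → U) (ev : U → Ordinal.{u} → U)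
    (𝒞 : Ordinal.{u} → Set (Set Ordinal.{u})) (𝓕 : Set (List U → U)) : Prop where
  star : ∀ M : Set U, M.Countable → ClS 𝓕 M → ∃ᶠ γ in CF κ, (∃ e, Norm e γ) ∧ SemAt j ev M γ
  astar : ∀ M : Set U, M.Countable → ClS 𝓕 M → ∀ δ β, ¬ Bad κ 𝒞 (oM κ j M) δ β
  ext : ∀ M : Set U, ClS 𝓕 M → ∀ γ < κ.ord, ClS 𝓕 (ext ev M γ)
  sub : ∀ M : Set U, ClS 𝓕 M → ∀ γ < κ.ord, M ⊆ SSR.ext ev M γ
  self : ∀ M : Set U, ClS 𝓕 M → ∀ γ < κ.ord, j γ ∈ SSR.ext ev M γ
  eF : ∀ M : Set U, ClS 𝓕 M → ∀ γ ξ, γ < κ.ord → ξ < κ.ord → j γ ∈ M → j ξ ∈ M →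
    (∃ e, Norm e γ) → ξ < γ → ∃ ι < ω₁, ξ < eN γ ι ∧ j ι ∈ M
  trans : ∀ M : Set U, ClS 𝓕 M → ∀ ξ < ω₁, j ξ ∈ M → ∀ ζ < ξ, j ζ ∈ M

theorem exists_Sys (hκ : κ.IsRegular) (h2 : ℵ₁ < κ) (hSSR : SemistationaryReflection.{u})
    (hc : Code κ j ev) {𝒞 : Ordinal.{u} → Set (Set Ordinal.{u})} (h𝒞 : Coh κ 𝒞) :
    ∃ 𝓕 : Set (List U → U), 𝓕.Countable ∧ Sys κ j ev 𝒞 𝓕 := by
  classical
  obtain ⟨F0, hF0⟩ := star hκ h2 hSSR hc
  obtain ⟨F1, hF1⟩ := aStar hκ h2 hSSR hc h𝒞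
  have hωκ := omega1_lt h2
  obtain ⟨jinv, hjinv⟩ : ∃ jinv : U → Ordinal.{u}, ∀ α < κ.ord, jinv (j α) = α :=
    ⟨Function.invFunOn j (Iio κ.ord), fun α hα => hc.inj.leftInvOn_invFunOn hα⟩
  -- constants
  have hconst : ∀ a : U, ∃ h, ∀ γ < κ.ord, ev h γ = a := fun a => hc.surj (fun _ => a)
  choose cst hcst using hconst
  obtain ⟨idc, hidc⟩ := hc.surj j
  -- indices
  have hidx : ∀ γ ξ, ∃ ι, (∃ e, Norm e γ) → ξ < γ → ι < ω₁ ∧ ξ < eN γ ι := by
    intro γ ξ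
    by_cases h : (∃ e, Norm e γ) ∧ ξ < γ
    · obtain ⟨ι, h3, h4⟩ := (eN_norm h.1).cof ξ h.2
      exact ⟨ι, fun _ _ => ⟨h3, h4⟩⟩
    · exact ⟨0, fun h3 h4 => absurd ⟨h3, h4⟩ h⟩
  choose idx hidx using hidx
  -- enumerations of countable ordinals
  have henum : ∀ ξ, ∃ g : ℕ → Ordinal.{u}, ξ < ω₁ → ∀ ζ < ξ, ∃ n, g n = ζ := by
    intro ξ
    by_cases h : ξ < ω₁
    · by_cases h0 : ξ = 0
      · exact ⟨fun _ => 0, fun _ ζ hζ => absurd (h0 ▸ hζ) not_lt_zero⟩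
      · obtain ⟨g, hg⟩ := (countable_Iio h).exists_eq_range ⟨0, pos_iff_ne_zero.2 h0⟩
        refine ⟨g, fun _ ζ hζ => ?_⟩
        have : ζ ∈ Iio ξ := hζ
        rw [hg] at this
        exact this
    · exact ⟨fun _ => 0, fun h' => absurd h' h⟩
  choose g hg using henum
  let fc : List U → U := fun l => match l with
    | [] => j 0
    | a :: _ => cst a
  let fid : List U → U := fun _ => idc
  let fe : List U → U := fun l => match l with
    | [a, b] => j (idx (jinv a) (jinv b))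
    | _ => j 0
  let fg : ℕ → List U → U := fun n l => match l with
    | [a] => j (g (jinv a) n)
    | _ => j 0
  let 𝓕0 : Set (List U → U) := (range F0 ∪ range F1) ∪ ({fc, fid, fe} ∪ range fg)
  have h𝓕0 : 𝓕0.Countable := by
    refine ((countable_range _).union (countable_range _)).union (Countable.union ?_ (countable_range _))
    exact (((countable_singleton fe).insert fid).insert fc)
  let 𝓕 : Set (List U → U) := ⋃ n : ℕ, ((hat hc)^[n]) '' 𝓕0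
  have h𝓕 : 𝓕.Countable := countable_iUnion fun n => h𝓕0.image _
  have hsub : 𝓕0 ⊆ 𝓕 := fun F hF => mem_iUnion.2 ⟨0, F, hF, rfl⟩
  have hhat : ∀ F ∈ 𝓕, hat hc F ∈ 𝓕 := by
    intro F hF
    obtain ⟨n, G, hG, rfl⟩ := mem_iUnion.1 hF
    exact mem_iUnion.2 ⟨n + 1, G, hG, Function.iterate_succ_apply' _ _ _⟩
  have m0 : ∀ n, F0 n ∈ 𝓕 := fun n => hsub (Or.inl (Or.inl (mem_range_self n)))
  have m1 : ∀ n, F1 n ∈ 𝓕 := fun n => hsub (Or.inl (Or.inr (mem_range_self n)))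
  have mc : fc ∈ 𝓕 := hsub (Or.inr (Or.inl (by simp)))
  have mid : fid ∈ 𝓕 := hsub (Or.inr (Or.inl (by simp)))
  have me : fe ∈ 𝓕 := hsub (Or.inr (Or.inl (by simp)))
  have mg : ∀ n, fg n ∈ 𝓕 := fun n => hsub (Or.inr (Or.inr (mem_range_self n)))
  refine ⟨𝓕, h𝓕, ?_, ?_, ?_, ?_, ?_, ?_, ?_⟩
  · intro M hM hcl
    exact hF0 M hM fun n l hl => hcl _ (m0 n) l hl
  · intro M hM hcl
    exact hF1 M hM fun n l hl => hcl _ (m1 n) l hl
  · intro M hM γ hγ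
    exact ext_closed hc hhat hM hγ
  · intro M hM γ hγ a ha
    refine ⟨cst a, hM _ mc [a] (by simpa using ha), hcst a γ hγ⟩
  · intro M hM γ hγ
    exact ⟨idc, hM _ mid [] (by simp), hidc γ hγ⟩
  · intro M hM γ ξ hγ hξ hγM hξM hE hlt
    refine ⟨idx γ ξ, (hidx γ ξ hE hlt).1, (hidx γ ξ hE hlt).2, ?_⟩
    have h3 : fe [j γ, j ξ] ∈ M := hM fe me [j γ, j ξ] (by
      intro a ha
      simp only [List.mem_cons, List.not_mem_nil, or_false] at ha
      rcases ha with rfl | rfl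
      · exact hγM
      · exact hξM)
    have h4 : fe [j γ, j ξ] = j (idx γ ξ) := by
      show j (idx (jinv (j γ)) (jinv (j ξ))) = _
      rw [hjinv γ hγ, hjinv ξ hξ]
    rwa [h4] at h3
  · intro M hM ξ hξ hξM ζ hζ
    obtain ⟨n, hn⟩ := hg ξ hξ ζ hζ
    have h3 : fg n [j ξ] ∈ M := hM (fg n) (mg n) [j ξ] (by simpa using hξM)
    have h4 : fg n [j ξ] = j ζ := by
      show j (g (jinv (j ξ)) n) = _
      rw [hjinv ξ (hξ.trans hωκ), hn]
    rwa [h4] at h3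

end

end Pool.Agent.H646.SSR
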