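import Pool.Agent.H646.SSR.Club

/-!
# Stationary sets of points of small cofinality, and finite sequences
-/

namespace Pool.Agent.H646.SSR

open Cardinal Ordinal Set Filter Order

universe u v

/-- `e` is (on `ω₁`) a strictly increasing continuous cofinal function into `γ`. -/
structure Norm (e : Ordinal.{u} → Ordinal.{u}) (γ : Ordinal.{u}) : Prop where
  lt : ∀ δ < ω₁, e δ < γ
  mono : ∀ ε δ, ε < δ → δ < ω₁ → e ε < e δ
  cont : ∀ δ < ω₁, 0 < δ → (∀ ε < δ, ε + 1 < δ) → ∀ a < e δ, ∃ ε < δ, a < e ε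
  cof : ∀ a < γ, ∃ ε < ω₁, a < e ε

/-- The auxiliary recursion `h ξ = sup_{ζ<ξ} G (h ζ)`. -/
noncomputable def rec0 (G : Ordinal.{u} → Ordinal.{u}) (ξ : Ordinal.{u}) : Ordinal.{u} :=
  ⨆ ζ : Iio ξ, G (rec0 G ζ.1)
termination_by ξ
decreasing_by exact ζ.2

theorem rec0_eq (G : Ordinal.{u} → Ordinal.{u}) (ξ : Ordinal.{u}) :
    rec0 G ξ = ⨆ ζ : Iio ξ, G (rec0 G ζ.1) := by
  rw [rec0]

theorem le_rec0 (G : Ordinal.{u} → Ordinal.{u}) {ζ ξ : Ordinal.{u}} (h : ζ < ξ) :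
    G (rec0 G ζ) ≤ rec0 G ξ := by
  rw [rec0_eq G ξ]
  exact le_ciSup (f := fun ζ : Iio ξ => G (rec0 G ζ.1)) (Ordinal.bddAbove_of_small) ⟨ζ, h⟩

theorem lt_rec0 (G : Ordinal.{u} → Ordinal.{u}) {a ξ : Ordinal.{u}} (h : a < rec0 G ξ) :
    ∃ ζ < ξ, a < G (rec0 G ζ) := by
  rw [rec0_eq G ξ, Ordinal.lt_iSup_iff] at h
  obtain ⟨⟨ζ, hζ⟩, h⟩ := h
  exact ⟨ζ, hζ, h⟩

section
variable {θ : Cardinal.{u}} (hθ : θ.IsRegular)
include hθ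

theorem rec0_lt {G : Ordinal.{u} → Ordinal.{u}} (hG : ∀ a < θ.ord, G a < θ.ord)
    {ξ : Ordinal.{u}} (hξ : ξ < θ.ord) : rec0 G ξ < θ.ord := by
  induction ξ using WellFoundedLT.induction with
  | _ ξ ih =>
    obtain ⟨b, hb, hb'⟩ := bound hθ (card_Iio_lt hξ) (fun ζ : Iio ξ => G (rec0 G ζ.1))
      (fun ζ => hG _ (ih _ ζ.2 (ζ.2.trans hξ)))
    rw [rec0_eq]
    refine lt_of_le_of_lt ?_ hb
    by_contra hcon
    rw [not_le, Ordinal.lt_iSup_iff] at hcon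
    obtain ⟨ζ, hζ⟩ := hcon
    exact absurd (hb' ζ) hζ.not_gt

theorem exists_rec {f : Ordinal.{u} → Ordinal.{u}} (hf : ∀ a < θ.ord, f a < θ.ord) :
    ∃ h : Ordinal.{u} → Ordinal.{u}, (∀ ξ < θ.ord, h ξ < θ.ord) ∧
      (∀ ζ ξ, ζ < ξ → ξ < θ.ord → h ζ < h ξ) ∧
      (∀ ξ < θ.ord, 0 < ξ → (∀ ε < ξ, ε + 1 < ξ) → ∀ a < h ξ, ∃ ε < ξ, a < h ε) ∧
      (∀ ξ < θ.ord, 0 < ξ → (∀ ε < ξ, ε + 1 < ξ) → ∀ a < h ξ, f a < h ξ) := by
  have hb : ∀ ε, ∃ b, ε < θ.ord → b < θ.ord ∧ ε < b ∧ ∀ i ≤ ε, f i < b := by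
    intro ε
    by_cases hε : ε < θ.ord
    · have hε1 : ε + 1 < θ.ord := add_one_lt_ord hθ.aleph0_le hε
      obtain ⟨b, hb, hb'⟩ := bound hθ (card_Iio_lt hε1) (fun i => f i.1)
        (fun i => hf i.1 (i.2.trans hε1))
      refine ⟨max b (ε + 1), fun _ => ⟨max_lt hb hε1, lt_max_of_lt_right (lt_add_one _),
        fun i hi => lt_max_of_lt_left ?_⟩⟩
      exact hb' ⟨i, lt_add_one_iff.2 hi⟩
    · exact ⟨0, fun h => absurd h hε⟩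
  choose G hG using hb
  have hlt : ∀ ξ < θ.ord, rec0 G ξ < θ.ord := fun ξ hξ => rec0_lt hθ (fun a ha => (hG a ha).1) hξ
  have hmono : ∀ ζ ξ, ζ < ξ → ξ < θ.ord → rec0 G ζ < rec0 G ξ := fun ζ ξ h h' =>
    (hG _ (hlt ζ (h.trans h'))).2.1.trans_le (le_rec0 G h)
  refine ⟨rec0 G, hlt, hmono, ?_, ?_⟩
  · intro ξ hξ h0 hl a ha
    obtain ⟨ζ, hζ, h⟩ := lt_rec0 G ha
    exact ⟨ζ + 1, hl ζ hζ, h.trans_le (le_rec0 G (lt_add_one ζ))⟩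
  · intro ξ hξ h0 hl a ha
    obtain ⟨ζ, hζ, h⟩ := lt_rec0 G ha
    have h1 : ζ + 1 < ξ := hl ζ hζ
    have h2 : a ≤ rec0 G (ζ + 1) := h.le.trans (le_rec0 G (lt_add_one ζ))
    have h3 := (hG _ (hlt _ (h1.trans hξ))).2.2 a h2
    exact h3.trans_le (le_rec0 G h1)

theorem freq_E1 (h1 : ℵ₁ < θ) : ∃ᶠ γ in CF θ, ∃ e, Norm e γ := by
  rw [frequently_iff]
  rintro s ⟨f, hf, hs⟩
  obtain ⟨h, hlt, hmono, hcont, hcl⟩ := exists_rec hθ hf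
  have hw : (ω₁ : Ordinal.{u}) < θ.ord := by
    have := Cardinal.ord_lt_ord.2 h1
    simpa using this
  have hwl : ∀ ε < (ω₁ : Ordinal.{u}), ε + 1 < ω₁ := fun ε hε =>
    (isSuccLimit_omega 1).add_one_lt hε
  have hw0 : (0 : Ordinal.{u}) < ω₁ := Ordinal.omega_pos 1
  refine ⟨h ω₁, hs ⟨?_, hlt _ hw, hcl _ hw hw0 hwl⟩, h, ?_⟩
  · exact zero_le.trans_lt (hmono 0 _ hw0 hw)
  · exact ⟨fun δ hδ => hmono _ _ hδ hw, fun ε δ hε hδ => hmono _ _ hε (hδ.trans hw),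
      fun δ hδ h0 hl => hcont δ (hδ.trans hw) h0 hl, hcont _ hw hw0 hwl⟩

theorem freq_E0 (h1 : ℵ₀ < θ) : ∃ᶠ β in CF θ, ∃ b : ℕ → Ordinal.{u}, (∀ n, b n < β) ∧
    ∀ a < β, ∃ n, a < b n := by
  rw [frequently_iff]
  rintro s ⟨f, hf, hs⟩
  obtain ⟨h, hlt, hmono, hcont, hcl⟩ := exists_rec hθ hf
  have hw : (ω : Ordinal.{u}) < θ.ord := by
    have := Cardinal.ord_lt_ord.2 h1
    simpa using this
  have hwl : ∀ ε < (ω : Ordinal.{u}), ε + 1 < ω := fun ε hε =>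
    isSuccLimit_omega0.add_one_lt hε
  have hw0 : (0 : Ordinal.{u}) < ω := Ordinal.omega0_pos
  refine ⟨h ω, hs ⟨?_, hlt _ hw, hcl _ hw hw0 hwl⟩, fun n => h n, ?_, ?_⟩
  · exact zero_le.trans_lt (hmono 0 _ hw0 hw)
  · intro n
    exact hmono _ _ (natCast_lt_omega0 n) hw
  · intro a ha
    obtain ⟨ε, hε, h⟩ := hcont _ hw hw0 hwl a ha
    obtain ⟨n, rfl⟩ := lt_omega0.1 hε
    exact ⟨n, h⟩

/-- Diagonal intersections over finite sequences. -/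
theorem ev_list (h1 : ℵ₀ < θ) {P : List Ordinal.{u} → Ordinal.{u} → Prop}
    (h : ∀ t : List Ordinal.{u}, (∀ a ∈ t, a < θ.ord) → ∀ᶠ δ in CF θ, P t δ) :
    ∀ᶠ δ in CF θ, ∀ t : List Ordinal.{u}, (∀ a ∈ t, a < δ) → P t δ := by
  have key : ∀ m < θ.ord, ∀ᶠ δ in CF θ, ∀ t : List (Iio (m + 1)), P (t.map Subtype.val) δ := by
    intro m hm
    have hm1 : m + 1 < θ.ord := add_one_lt_ord hθ.aleph0_le hm
    refine ev_all hθ ?_ (fun t => h _ ?_)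
    · have h2 : #(List (Iio (m + 1))) ≤ max ℵ₀ #(Iio (m + 1)) := Cardinal.mk_list_le_max _
      refine lt_of_le_of_lt (Cardinal.lift_le.2 h2) ?_
      rw [Cardinal.lift_max, max_lt_iff]
      refine ⟨?_, card_Iio_lt hm1⟩
      rw [Cardinal.lift_aleph0, Cardinal.aleph0_lt_lift]
      exact h1
    · intro a ha
      obtain ⟨b, _, rfl⟩ := List.mem_map.1 ha
      exact b.2.trans hm1
  filter_upwards [ev_diag hθ key, ev_pos θ, ev_limit hθ.aleph0_le] with δ h2 h0 hl t ht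
  have hex : ∃ m < δ, ∀ a ∈ t, a ≤ m := by
    clear h2
    induction t with
    | nil => exact ⟨0, h0, by simp⟩
    | cons x t ih =>
      obtain ⟨m, hm, hm'⟩ := ih (fun a ha => ht a (List.mem_cons_of_mem _ ha))
      refine ⟨max m x, max_lt hm (ht x List.mem_cons_self), fun a ha => ?_⟩
      rcases List.mem_cons.1 ha with rfl | ha
      · exact le_max_right _ _
      · exact (hm' a ha).trans (le_max_left _ _)
  obtain ⟨m, hm, hm'⟩ := hex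
  have h3 := h2 m hm (t.attach.map fun a => ⟨a.1, lt_add_one_iff.2 (hm' a.1 a.2)⟩)
  simpa [List.map_map, Function.comp_def] using h3

/-- Fodor's lemma for finite sequences. -/
theorem fodor_list (h1 : ℵ₀ < θ) {Q : Ordinal.{u} → Prop} {r : Ordinal.{u} → List Ordinal.{u}}
    (h : ∃ᶠ δ in CF θ, Q δ ∧ ∀ a ∈ r δ, a < δ) :
    ∃ t : List Ordinal.{u}, (∀ a ∈ t, a < θ.ord) ∧ ∃ᶠ δ in CF θ, Q δ ∧ r δ = t := by
  by_contra hcon
  have h2 : ∀ t : List Ordinal.{u}, (∀ a ∈ t, a < θ.ord) → ∀ᶠ δ in CF θ, ¬ (Q δ ∧ r δ = t) :=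
    fun t ht => not_frequently.1 fun h => hcon ⟨t, ht, h⟩
  have h3 := ev_list hθ h1 h2
  obtain ⟨δ, ⟨hQ, hr⟩, h4⟩ := (h.and_eventually h3).exists
  exact h4 _ hr ⟨hQ, rfl⟩

end

end Pool.Agent.H646.SSR
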