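import Pool.Agent.H646.SSR.Defs
import Pool.Agent.H646.SSR.Stat

/-!
# Semistationary reflection for arbitrary sets
-/

namespace Pool.Agent.H646.SSR

open Cardinal Ordinal Set Filter Order

universe u v

/-- `x` is closed under all the finitary functions `F n`. -/
def Cl {X : Type u} (F : ℕ → List X → X) (x : Set X) : Prop :=
  ∀ n, ∀ l : List X, (∀ a ∈ l, a ∈ x) → F n l ∈ x

theorem neBot_CF {θ : Cardinal.{u}} (hθ : θ.IsRegular) (h1 : ℵ₀ < θ) : NeBot (CF θ) := by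
  constructor
  intro h
  have := freq_E0 hθ h1
  rw [h] at this
  simp at this

theorem countable_Iio {δ : Ordinal.{u}} (h : δ < ω₁) : (Iio δ).Countable := by
  rw [← le_aleph0_iff_set_countable, Cardinal.mk_Iio_ordinal]
  rw [← Cardinal.lift_aleph0.{u+1, u}, Cardinal.lift_le]
  rw [← Cardinal.ord_aleph, Cardinal.lt_ord] at h
  rw [← Order.lt_succ_iff]
  simpa using h

/-- countable sets of countable ordinals are bounded below `ω₁` -/
theorem bound_ctbl {T : Set Ordinal.{u}} (hT : T.Countable) (h : ∀ a ∈ T, a < ω₁) :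
    ∃ b < (ω₁ : Ordinal.{u}), ∀ a ∈ T, a < b := by
  have h1 : (ω₁ : Ordinal.{u}) = (ℵ₁ : Cardinal.{u}).ord := by simp
  rw [h1] at h ⊢
  have hc : Cardinal.lift.{u} #T < Cardinal.lift.{u+1} (ℵ₁ : Cardinal.{u}) := by
    have h2 : #T ≤ ℵ₀ := le_aleph0_iff_set_countable.2 hT
    calc Cardinal.lift.{u} #T ≤ Cardinal.lift.{u} ℵ₀ := Cardinal.lift_le.2 h2
      _ < Cardinal.lift.{u+1} (ℵ₁ : Cardinal.{u}) := by simp
  obtain ⟨b, hb, hb'⟩ := bound isRegular_aleph_one hc (fun a : T => a.1) (fun a => h a.1 a.2)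
  exact ⟨b, hb, fun a ha => hb' ⟨a, ha⟩⟩

/-- coding a set `X` with a copy of `ω₁` into a regular cardinal `μ ≥ ω₂` -/
theorem exists_code {X : Type u} (i : Ordinal.{u} → X) (hi : InjOn i (Iio ω₁)) :
    ∃ μ : Cardinal.{u}, μ.IsRegular ∧ ℵ_ 2 ≤ μ ∧ ∃ c : X → Ordinal.{u}, Function.Injective c ∧
      (∀ x, c x < μ.ord) ∧ ∀ ξ < ω₁, c (i ξ) = ξ := by
  classical
  set μ : Cardinal.{u} := succ (max #X ℵ₁) with hμ
  have h1 : ℵ₁ ≤ max #X ℵ₁ := le_max_right _ _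
  have h0 : ℵ₀ ≤ max #X ℵ₁ := aleph0_le_aleph 1 |>.trans h1
  have hreg : μ.IsRegular := isRegular_succ h0
  refine ⟨μ, hreg, ?_, ?_⟩
  · have : (ℵ_ 2 : Cardinal.{u}) = succ ℵ₁ := by
      rw [succ_aleph]
      norm_num
    rw [this]
    exact succ_le_succ h1
  · have hX : Cardinal.lift.{u+1} #X ≤ Cardinal.lift.{u} #(Iio μ.ord) := by
      rw [Cardinal.mk_Iio_ordinal, Cardinal.lift_lift, card_ord]
      exact Cardinal.lift_le.2 ((le_max_left _ _).trans (le_succ _))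
    obtain ⟨f⟩ := Cardinal.lift_mk_le'.1 hX
    have hw : (ω₁ : Ordinal.{u}) < μ.ord := by
      rw [← Cardinal.ord_aleph, Cardinal.ord_lt_ord]
      exact h1.trans_lt (lt_succ _)
    let c : X → Ordinal.{u} := fun x => if h : ∃ ξ, ξ < ω₁ ∧ i ξ = x then h.choose else ω₁ + (f x).1
    have hc1 : ∀ ξ < ω₁, c (i ξ) = ξ := by
      intro ξ hξ
      have h : ∃ ξ', ξ' < ω₁ ∧ i ξ' = i ξ := ⟨ξ, hξ, rfl⟩
      have : c (i ξ) = h.choose := dif_pos h
      rw [this]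
      exact hi h.choose_spec.1 hξ h.choose_spec.2
    have hc2 : ∀ x, (¬ ∃ ξ, ξ < ω₁ ∧ i ξ = x) → c x = ω₁ + (f x).1 := fun x h => dif_neg h
    refine ⟨c, ?_, ?_, hc1⟩
    · intro x y hxy
      by_cases hx : ∃ ξ, ξ < ω₁ ∧ i ξ = x
      · obtain ⟨ξ, hξ, rfl⟩ := hx
        by_cases hy : ∃ ξ, ξ < ω₁ ∧ i ξ = y
        · obtain ⟨ζ, hζ, rfl⟩ := hy
          rw [hc1 ξ hξ, hc1 ζ hζ] at hxy
          rw [hxy]
        · rw [hc1 ξ hξ, hc2 y hy] at hxy
          exact absurd (hxy ▸ hξ) (not_lt.2 (le_add_right le_rfl))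
      · by_cases hy : ∃ ξ, ξ < ω₁ ∧ i ξ = y
        · obtain ⟨ζ, hζ, rfl⟩ := hy
          rw [hc1 ζ hζ, hc2 x hx] at hxy
          exact absurd (hxy ▸ hζ) (not_lt.2 (le_add_right le_rfl))
        · rw [hc2 x hx, hc2 y hy] at hxy
          exact f.injective (Subtype.ext (add_left_cancel hxy))
    · intro x
      by_cases hx : ∃ ξ, ξ < ω₁ ∧ i ξ = x
      · obtain ⟨ξ, hξ, rfl⟩ := hx
        rw [hc1 ξ hξ]
        exact hξ.trans hw
      · rw [hc2 x hx]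
        exact (isPrincipal_add_ord hreg.aleph0_le) hw (f x).2

theorem mem_Ctbl {A x : Set Ordinal.{u}} (h1 : x ⊆ A) (h2 : x.Countable) (h3 : x.Infinite) :
    x ∈ Ctbl A := by
  refine ⟨h1, ?_⟩
  have := h2.to_subtype
  have := h3.to_subtype
  exact Cardinal.mk_eq_aleph0 _

theorem Ctbl_countable {A x : Set Ordinal.{u}} (h : x ∈ Ctbl A) : x.Countable :=
  le_aleph0_iff_set_countable.1 h.2.le

theorem Ctbl_infinite {A x : Set Ordinal.{u}} (h : x ∈ Ctbl A) : x.Infinite := by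
  rw [← Set.infinite_coe_iff, Cardinal.infinite_iff]
  exact h.2.ge

/-- Menas' projection: the preimage of the stationary set is stationary. -/
theorem stat_transfer {X : Type u} (x0 : X) {μ : Cardinal.{u}} (hμ : ℵ₀ ≤ μ) {c : X → Ordinal.{u}}
    (hc : Function.Injective c) (hcμ : ∀ x, c x < μ.ord) (S : Set (Set X))
    (hcl : ∀ F : ℕ → List X → X, ∃ x ∈ S, x.Countable ∧ Cl F x) :
    IsStatCtbl (Iio μ.ord) {y | y ∈ Ctbl (Iio μ.ord) ∧ c ⁻¹' y ∈ S} := by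
  intro D hD
  obtain ⟨hD1, hD2, hD3⟩ := hD
  have hne : ∃ y, y ∈ D := by
    have h1 : Iio (ω : Ordinal.{u}) ∈ Ctbl (Iio μ.ord) := by
      refine mem_Ctbl ?_ ?_ ?_
      · refine Iio_subset_Iio ?_
        rw [← Cardinal.ord_aleph0, Cardinal.ord_le_ord]
        exact hμ
      · exact countable_Iio omega0_lt_omega_one
      · have : Set.range (fun n : ℕ => (n : Ordinal.{u})) ⊆ Iio ω := by
          rintro _ ⟨n, rfl⟩
          exact natCast_lt_omega0 n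
        exact (Set.infinite_range_of_injective Nat.cast_injective).mono this
    obtain ⟨y, hy, _⟩ := hD2 _ h1
    exact ⟨y, hy⟩
  obtain ⟨y0, hy0⟩ := hne
  have hstep : ∀ (y : D) (a : X), ∃ z : D, y.1 ⊆ z.1 ∧ c a ∈ z.1 := by
    intro y a
    have h1 := hD1 y.2
    have h2 : insert (c a) y.1 ∈ Ctbl (Iio μ.ord) := by
      refine mem_Ctbl (insert_subset (hcμ a) h1.1) ?_ ?_
      · exact (Ctbl_countable h1).insert _
      · exact (Ctbl_infinite h1).mono (subset_insert _ _)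
    obtain ⟨z, hz, hz'⟩ := hD2 _ h2
    exact ⟨⟨z, hz⟩, (subset_insert _ _).trans hz', hz' (mem_insert _ _)⟩
  choose st hst using hstep
  let Y : List X → D := fun l => l.foldr (fun a y => st y a) ⟨y0, hy0⟩
  have hY : ∀ a l, (Y l).1 ⊆ (Y (a :: l)).1 ∧ c a ∈ (Y (a :: l)).1 := fun a l => hst _ _
  have hcount : ∀ l, (insert x0 (c ⁻¹' (Y l).1)).Countable := fun l =>
    ((Ctbl_countable (hD1 (Y l).2)).preimage hc).insert _
  have henum : ∀ l, ∃ f : ℕ → X, insert x0 (c ⁻¹' (Y l).1) = range f := fun l =>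
    (hcount l).exists_eq_range (insert_nonempty _ _)
  choose F hF using henum
  obtain ⟨x, hxS, hxc, hxcl⟩ := hcl (fun n l => F l n)
  have hsub : ∀ l : List X, (∀ a ∈ l, a ∈ x) → insert x0 (c ⁻¹' (Y l).1) ⊆ x := by
    intro l hl
    rw [hF l]
    rintro _ ⟨n, rfl⟩
    exact hxcl n l hl
  have hx0 : x0 ∈ x := hsub [] (by simp) (mem_insert _ _)
  obtain ⟨g, hg⟩ := hxc.exists_eq_range ⟨x0, hx0⟩
  let L : ℕ → List X := fun n => Nat.rec [] (fun k l => g k :: l) n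
  have hL : ∀ n, ∀ a ∈ L n, a ∈ x := by
    intro n
    induction n with
    | zero => simp [L]
    | succ n ih =>
      intro a ha
      have : L (n + 1) = g n :: L n := rfl
      rw [this] at ha
      rcases List.mem_cons.1 ha with rfl | ha
      · rw [hg]; exact mem_range_self n
      · exact ih a ha
  have hu : (⋃ n, (Y (L n)).1) ∈ D := hD3 _ (fun n => (Y (L n)).2) (fun n => (hY (g n) (L n)).1)
  have heq : c ⁻¹' (⋃ n, (Y (L n)).1) = x := by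
    apply Subset.antisymm
    · intro a ha
      rw [mem_preimage, mem_iUnion] at ha
      obtain ⟨n, hn⟩ := ha
      exact hsub (L n) (hL n) (mem_insert_of_mem _ hn)
    · intro a ha
      rw [hg] at ha
      obtain ⟨n, rfl⟩ := ha
      rw [mem_preimage, mem_iUnion]
      exact ⟨n + 1, (hY (g n) (L n)).2⟩
  refine ⟨_, ⟨hD1 hu, ?_⟩, hu⟩
  rw [heq]
  exact hxS

/-- the filtration of a stationary set in `[W]^{ℵ₀}`, `|W| = ℵ₁` -/
theorem exists_filtration {W : Set Ordinal.{u}} (hW : #W = ℵ₁) (hW1 : Iio ω₁ ⊆ W)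
    {S : Set (Set Ordinal.{u})} (hS : IsStatCtbl W S) :
    ∃ w : Ordinal.{u} → Ordinal.{u}, ∃ᶠ δ in CF ℵ₁, w '' (Iio δ) ∈ S ∧
      ∀ ξ < ω₁, ξ ∈ w '' (Iio δ) ↔ ξ < δ := by
  classical
  have hreg : (ℵ₁ : Cardinal.{u}).IsRegular := isRegular_aleph_one
  have hord : (ℵ₁ : Cardinal.{u}).ord = ω₁ := by simp
  have hcard : #(Iio (ω₁ : Ordinal.{u})) = #W := by
    rw [hW, Cardinal.mk_Iio_ordinal, ← hord, card_ord]
    simp
  obtain ⟨e⟩ := Cardinal.eq.1 hcard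
  let w : Ordinal.{u} → Ordinal.{u} := fun ε => if h : ε < ω₁ then (e ⟨ε, h⟩).1 else 0
  have hw : ∀ ε (h : ε < ω₁), w ε = (e ⟨ε, h⟩).1 := fun ε h => dif_pos h
  have hwW : ∀ ε < ω₁, w ε ∈ W := fun ε h => by rw [hw ε h]; exact (e ⟨ε, h⟩).2
  have hwinj : InjOn w (Iio ω₁) := by
    intro a ha b hb hab
    rw [hw a ha, hw b hb] at hab
    have := e.injective (Subtype.ext hab)
    exact congrArg Subtype.val this
  let v : Ordinal.{u} → Ordinal.{u} := fun a => if h : a ∈ W then (e.symm ⟨a, h⟩).1 else 0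
  have hv : ∀ a (h : a ∈ W), v a = (e.symm ⟨a, h⟩).1 := fun a h => dif_pos h
  have hv1 : ∀ a ∈ W, v a < ω₁ := fun a h => by rw [hv a h]; exact (e.symm ⟨a, h⟩).2
  have hwv : ∀ a ∈ W, w (v a) = a := by
    intro a h
    rw [hw _ (hv1 a h)]
    have : (⟨v a, hv1 a h⟩ : Iio ω₁) = e.symm ⟨a, h⟩ := Subtype.ext (hv a h)
    rw [this, Equiv.apply_symm_apply]
  refine ⟨w, ?_⟩
  rw [frequently_iff]
  intro U hU
  have hgood : ∀ᶠ δ in CF (ℵ₁ : Cardinal.{u}), δ ∈ U ∧ ω < δ ∧ (∀ ε < δ, (if w ε < ω₁ then w ε else 0) < δ) ∧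
      (∀ ε < δ, v ε < δ) := by
    refine (eventually_mem_set.2 hU).and ((ev_gt ?_).and ((ev_fun ?_).and (ev_fun ?_)))
    · rw [hord]; exact omega0_lt_omega_one
    · intro ε _
      rw [hord]
      split_ifs with h
      · exact h
      · exact Ordinal.omega_pos 1
    · intro ε hε
      rw [hord] at hε ⊢
      exact hv1 ε (hW1 hε)
  obtain ⟨f, hf, hf'⟩ := ev_iff.1 hgood
  rw [hord] at hf hf'
  let D : Set (Set Ordinal.{u}) := {x | ∃ δ, 0 < δ ∧ δ < ω₁ ∧ (∀ ε < δ, f ε < δ) ∧ x = w '' (Iio δ)}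
  have hDclub : IsClubCtbl W D := by
    refine ⟨?_, ?_, ?_⟩
    · rintro _ ⟨δ, h0, h1, h2, rfl⟩
      obtain ⟨_, hωδ, _, _⟩ := hf' δ h0 h1 h2
      refine mem_Ctbl ?_ ?_ ?_
      · rintro _ ⟨ε, hε, rfl⟩
        exact hwW ε (lt_trans hε h1)
      · exact (countable_Iio h1).image _
      · refine Set.Infinite.image (hwinj.mono (Iio_subset_Iio h1.le)) ?_
        have : Set.range (fun n : ℕ => (n : Ordinal.{u})) ⊆ Iio δ := by
          rintro _ ⟨n, rfl⟩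
          exact (natCast_lt_omega0 n).trans hωδ
        exact (Set.infinite_range_of_injective Nat.cast_injective).mono this
    · intro x hx
      obtain ⟨b, hb, hb'⟩ := bound_ctbl (T := v '' x) ((Ctbl_countable hx).image _) (by
        rintro _ ⟨a, ha, rfl⟩
        exact hv1 a (hx.1 ha))
      have : NeBot (CF (ℵ₁ : Cardinal.{u})) := neBot_CF hreg aleph0_lt_aleph_one
      have hev : ∀ᶠ δ in CF (ℵ₁ : Cardinal.{u}), 0 < δ ∧ δ < ω₁ ∧ (∀ ε < δ, f ε < δ) ∧ b < δ := by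
        refine (ev_pos _).and (((ev_lt _).mono fun δ h => ?_).and ((ev_fun ?_).and (ev_gt ?_)))
        · rwa [hord] at h
        · rwa [hord]
        · rwa [hord]
      obtain ⟨δ, h0, h1, h2, h3⟩ := hev.exists
      refine ⟨w '' (Iio δ), ⟨δ, h0, h1, h2, rfl⟩, fun a ha => ?_⟩
      exact ⟨v a, (hb' _ ⟨a, ha, rfl⟩).trans h3, hwv a (hx.1 ha)⟩
    · intro g hg hg'
      choose d h0 h1 h2 h3 using hg
      obtain ⟨b, hb, hb'⟩ := bound_ctbl (T := range d) (countable_range d) (by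
        rintro _ ⟨n, rfl⟩
        exact h1 n)
      have hbdd : BddAbove (range d) := ⟨b, by rintro _ ⟨n, rfl⟩; exact (hb' _ ⟨n, rfl⟩).le⟩
      refine ⟨⨆ n, d n, (h0 0).trans_le (le_ciSup hbdd 0), ?_, ?_, ?_⟩
      · exact (ciSup_le fun n => (hb' _ ⟨n, rfl⟩).le).trans_lt hb
      · intro ε hε
        obtain ⟨n, hn⟩ := exists_lt_of_lt_ciSup hε
        exact (h2 n ε hn).trans_le (le_ciSup hbdd n)
      · apply Subset.antisymm
        · intro a ha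
          obtain ⟨n, hn⟩ := mem_iUnion.1 ha
          rw [h3 n] at hn
          obtain ⟨ε, hε, rfl⟩ := hn
          exact ⟨ε, lt_of_lt_of_le hε (le_ciSup hbdd n), rfl⟩
        · rintro _ ⟨ε, hε, rfl⟩
          obtain ⟨n, hn⟩ := exists_lt_of_lt_ciSup (mem_Iio.1 hε)
          rw [mem_iUnion]
          refine ⟨n, ?_⟩
          rw [h3 n]
          exact ⟨ε, hn, rfl⟩
  obtain ⟨y, hyS, δ, h0, h1, h2, rfl⟩ := hS D hDclub
  obtain ⟨hU, _, hw', hv'⟩ := hf' δ h0 h1 h2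
  refine ⟨δ, hU, hyS, fun ξ hξ => ⟨?_, fun h => ⟨v ξ, hv' ξ h, hwv ξ (hW1 hξ)⟩⟩⟩
  rintro ⟨ε, hε, rfl⟩
  have := hw' ε hε
  rwa [if_pos hξ] at this

/-- Semistationary reflection for an arbitrary set `X` with a distinguished copy of `ω₁`. -/
theorem reflect (hSSR : SemistationaryReflection.{u}) {X : Type u} (i : Ordinal.{u} → X)
    (hi : InjOn i (Iio ω₁)) (S : Set (Set X))
    (hup : ∀ x ∈ S, ∀ y : Set X, y.Countable → x ⊆ y → (∀ ξ < ω₁, i ξ ∈ y → i ξ ∈ x) → y ∈ S)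
    (hcl : ∀ F : ℕ → List X → X, ∃ x ∈ S, x.Countable ∧ Cl F x) :
    ∃ V : Ordinal.{u} → Set X, (∀ δ < ω₁, (V δ).Countable) ∧ (∀ ε δ, ε ≤ δ → V ε ⊆ V δ) ∧
      (∀ δ, (∀ ε < δ, ε + 1 < δ) → ∀ a ∈ V δ, ∃ ε < δ, a ∈ V ε) ∧
      ∃ᶠ δ in CF ℵ₁, V δ ∈ S ∧ ∀ ξ < ω₁, i ξ ∈ V δ ↔ ξ < δ := by
  obtain ⟨μ, hμ, hμ2, c, hc, hcμ, hci⟩ := exists_code i hi
  have hst := stat_transfer (i 0) hμ.aleph0_le hc hcμ S hcl
  obtain ⟨W, hWμ, hW, hW1, hWst⟩ := hSSR μ hμ hμ2 _ (fun y hy => hy.1) hst (by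
    rintro x ⟨hx1, hx2⟩ y hy ⟨hxy1, hxy2⟩
    refine ⟨hy, hup _ hx2 _ ((Ctbl_countable hy).preimage hc) (preimage_mono hxy1) ?_⟩
    intro ξ hξ h
    rw [mem_preimage, hci ξ hξ] at h ⊢
    have : ξ ∈ x ∩ Iio ω₁ := by rw [hxy2]; exact ⟨h, hξ⟩
    exact this.1)
  obtain ⟨w, hw⟩ := exists_filtration hW hW1 hWst
  refine ⟨fun δ => c ⁻¹' (w '' Iio δ), ?_, ?_, ?_, ?_⟩
  · intro δ hδ
    exact ((countable_Iio hδ).image _).preimage hc
  · intro ε δ h
    exact preimage_mono (image_mono (Iio_subset_Iio h))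
  · rintro δ hδ a ⟨ε, hε, ha⟩
    exact ⟨ε + 1, hδ ε hε, ε, lt_add_one ε, ha⟩
  · refine hw.mono fun δ hδ => ⟨hδ.1.1.2, fun ξ hξ => ?_⟩
    rw [mem_preimage, hci ξ hξ]
    exact hδ.2 ξ hξ

end Pool.Agent.H646.SSR
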