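import Pool.Agent.H646.SSR.Thread

/-!
# Many semi-generic points
-/

namespace Pool.Agent.H646.SSR

open Cardinal Ordinal Set Filter Order

universe u v

/-- `U` is a set of codes for all functions from `κ` to `U`, containing a copy of `κ`. -/
structure Code (κ : Cardinal.{u}) {U : Type u} (j : Ordinal.{u} → U)
    (ev : U → Ordinal.{u} → U) : Prop where
  inj : InjOn j (Iio κ.ord)
  surj : ∀ g : Ordinal.{u} → U, ∃ h, ∀ γ < κ.ord, ev h γ = g γ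

theorem exists_Code {κ : Cardinal.{u}} (hκ : ℵ₀ ≤ κ) :
    ∃ (U : Type u) (j : Ordinal.{u} → U) (ev : U → Ordinal.{u} → U), Code κ j ev := by
  classical
  set K : Type u := Quotient.out κ with hK
  have hKc : #K = κ := Cardinal.mk_out κ
  have h1 : Cardinal.lift.{u} #(Iio κ.ord) = Cardinal.lift.{u+1} #K := by
    rw [Cardinal.mk_Iio_ordinal, Cardinal.lift_lift, card_ord, hKc]
  obtain ⟨p⟩ := Cardinal.lift_mk_eq'.1 h1
  have h2 : #(Set K) = #(K → Set K) := by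
    rw [Cardinal.mk_set, ← Cardinal.power_def, Cardinal.mk_set, hKc, ← Cardinal.power_mul,
      Cardinal.mul_eq_self hκ]
  obtain ⟨e1⟩ := Cardinal.eq.1 h2
  refine ⟨Set K, fun α => if h : α < κ.ord then {p ⟨α, h⟩} else ∅,
    fun h γ => if hγ : γ < κ.ord then e1 h (p ⟨γ, hγ⟩) else h, ?_, ?_⟩
  · intro a ha b hb hab
    simp only at hab
    rw [dif_pos (mem_Iio.1 ha), dif_pos (mem_Iio.1 hb), singleton_eq_singleton_iff] at hab
    exact congrArg Subtype.val (p.injective hab)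
  · intro g
    refine ⟨e1.symm fun k => g (p.symm k).1, fun γ hγ => ?_⟩
    rw [dif_pos hγ, Equiv.apply_symm_apply, Equiv.symm_apply_apply]

/-- `M[γ]` and `M` have the same countable ordinals. -/
def SemAt {U : Type u} (j : Ordinal.{u} → U) (ev : U → Ordinal.{u} → U) (M : Set U)
    (γ : Ordinal.{u}) : Prop :=
  ∀ h ∈ M, ∀ ξ < ω₁, ev h γ = j ξ → j ξ ∈ M

section

variable {κ : Cardinal.{u}} (hκ : κ.IsRegular) (h2 : ℵ₁ < κ)
  {U : Type u} {j : Ordinal.{u} → U} {ev : U → Ordinal.{u} → U}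

include h2 in
theorem omega1_lt : (ω₁ : Ordinal.{u}) < κ.ord := by
  rw [← Cardinal.ord_aleph, Cardinal.ord_lt_ord]
  exact h2

include hκ h2

theorem star (hSSR : SemistationaryReflection.{u}) (hc : Code κ j ev) :
    ∃ F : ℕ → List U → U, ∀ M : Set U, M.Countable → Cl F M →
      ∃ᶠ γ in CF κ, (∃ e, Norm e γ) ∧ SemAt j ev M γ := by
  by_contra hcon
  push Not at hcon
  have hi : InjOn j (Iio ω₁) := hc.inj.mono (Iio_subset_Iio (omega1_lt h2).le)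
  obtain ⟨V, hV1, hV2, hV3, hV4⟩ := reflect hSSR j hi
    {M | ¬ ∃ᶠ γ in CF κ, (∃ e, Norm e γ) ∧ SemAt j ev M γ} (by
      intro x hx y _ hxy htr hy
      refine hx (hy.mono fun γ hγ => ⟨hγ.1, fun h hh ξ hξ he => ?_⟩)
      exact htr ξ hξ (hγ.2 h (hxy hh) ξ hξ he)) (by
      intro F
      obtain ⟨M, h3, h4, h5⟩ := hcon F
      exact ⟨M, not_frequently.2 (h5.mono fun γ h h' => h h'.1 h'.2), h3, h4⟩)
  have hord : (ℵ₁ : Cardinal.{u}).ord = ω₁ := by simp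
  -- for each `γ`, club many `δ` are good
  have hz : ∀ γ, ∀ᶠ δ in CF ℵ₁, ∀ h ∈ V δ, ∀ ξ < ω₁, ev h γ = j ξ → ξ < δ := by
    intro γ
    have hT : ∀ ε, ∃ b, ε < ω₁ → b < ω₁ ∧ ∀ h ∈ V ε, ∀ ξ < ω₁, ev h γ = j ξ → ξ < b := by
      intro ε
      by_cases hε : ε < ω₁
      · have hcnt : {ξ | ξ < ω₁ ∧ ∃ h ∈ V ε, ev h γ = j ξ}.Countable := by
          refine countable_of_injective_of_countable_image (f := j)
            (hi.mono fun ξ hξ => hξ.1) ?_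
          refine ((hV1 ε hε).image (fun h => ev h γ)).mono ?_
          rintro _ ⟨ξ, ⟨_, h, hh, he⟩, rfl⟩
          exact ⟨h, hh, he⟩
        obtain ⟨b, hb, hb'⟩ := bound_ctbl hcnt fun ξ hξ => hξ.1
        exact ⟨b, fun _ => ⟨hb, fun h hh ξ hξ he => hb' ξ ⟨hξ, h, hh, he⟩⟩⟩
      · exact ⟨0, fun h => absurd h hε⟩
    choose b hb using hT
    have hbe : ∀ᶠ δ in CF (ℵ₁ : Cardinal.{u}), ∀ ε < δ, b ε < δ := ev_fun (by
      rw [hord]
      exact fun ε hε => (hb ε hε).1)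
    have hlt : ∀ᶠ δ in CF (ℵ₁ : Cardinal.{u}), δ < ω₁ := by
      have := ev_lt (ℵ₁ : Cardinal.{u})
      rwa [hord] at this
    filter_upwards [hbe, hlt, ev_limit aleph0_lt_aleph_one.le] with δ h3 h4 h5 h hh ξ hξ he
    obtain ⟨ε, hε, hh'⟩ := hV3 δ h5 h hh
    exact ((hb ε (hε.trans h4)).2 h hh' ξ hξ he).trans (h3 ε hε)
  have hlt : ∀ᶠ δ in CF (ℵ₁ : Cardinal.{u}), δ < ω₁ := by
    have := ev_lt (ℵ₁ : Cardinal.{u})
    rwa [hord] at this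
  have hex : ∀ γ, ∃ δ : Iio (ω₁ : Ordinal.{u}), V δ.1 ∈ {M | ¬ ∃ᶠ γ in CF κ, (∃ e, Norm e γ) ∧ SemAt j ev M γ} ∧
      SemAt j ev (V δ.1) γ := by
    intro γ
    obtain ⟨δ, ⟨h3, h4⟩, h5, h6⟩ := (hV4.and_eventually (hlt.and (hz γ))).exists
    exact ⟨⟨δ, h5⟩, h3, fun h hh ξ hξ he => (h4 ξ hξ).2 (h6 h hh ξ hξ he)⟩
  have hfr : ∃ᶠ γ in CF κ, ∃ δ : Iio (ω₁ : Ordinal.{u}), V δ.1 ∈ {M | ¬ ∃ᶠ γ in CF κ, (∃ e, Norm e γ) ∧ SemAt j ev M γ} ∧
      (∃ e, Norm e γ) ∧ SemAt j ev (V δ.1) γ := by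
    refine (freq_E1 hκ h2).mono fun γ hγ => ?_
    obtain ⟨δ, h3, h4⟩ := hex γ
    exact ⟨δ, h3, hγ, h4⟩
  obtain ⟨δ, h3⟩ := freq_all hκ (card_Iio_lt (omega1_lt h2)) hfr
  obtain ⟨γ, h4, _⟩ := h3.exists
  exact h4 (h3.mono fun γ h => h.2)

end

end Pool.Agent.H646.SSR
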