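import Pool.Agent.H646.SSR.Reflect

/-!
# From a stationary family of coherent approximations to a thread
-/

namespace Pool.Agent.H646.SSR

open Cardinal Ordinal Set Filter Order

universe u v

theorem isSuccLimit_of {β : Ordinal.{u}} (h0 : 0 < β) (h : ∀ a < β, a + 1 < β) :
    IsSuccLimit β := by
  rw [Ordinal.isSuccLimit_iff]
  refine ⟨h0.ne', ?_⟩
  rw [Order.isSuccPrelimit_iff_succ_lt]
  intro a ha
  exact h a ha

/-- the first two clauses of the definition of a square sequence -/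
structure Coh (κ : Cardinal.{u}) (𝒞 : Ordinal.{u} → Set (Set Ordinal.{u})) : Prop where
  ne : ∀ α < κ.ord, 0 < α → (∀ a < α, a + 1 < α) → (𝒞 α).Nonempty
  cnt : ∀ α < κ.ord, 0 < α → (∀ a < α, a + 1 < α) → (𝒞 α).Countable
  club : ∀ α < κ.ord, 0 < α → (∀ a < α, a + 1 < α) → ∀ C ∈ 𝒞 α, IsClubIn C α
  coh : ∀ α < κ.ord, 0 < α → (∀ a < α, a + 1 < α) → ∀ C ∈ 𝒞 α, ∀ β ∈ acc C, C ∩ Iio β ∈ 𝒞 β

theorem limit_of_unb {β : Ordinal.{u}} {Q : Ordinal.{u} → Prop} (h : ∀ a < β, ∃ c, Q c ∧ a < c ∧ c < β) :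
    ∀ a < β, a + 1 < β := by
  intro a ha
  obtain ⟨c, _, h1, h2⟩ := h a ha
  exact (Order.add_one_le_of_lt h1).trans_lt h2

theorem bound_of_norm {e : Ordinal.{u} → Ordinal.{u}} {η : Ordinal.{u}} (he : Norm e η)
    {T : Set Ordinal.{u}} (hT : T.Countable) (h : ∀ a ∈ T, a < η) : ∃ b < η, ∀ a ∈ T, a < b := by
  have h1 : ∀ a : T, ∃ ε < (ω₁ : Ordinal.{u}), a.1 < e ε := fun a => he.cof _ (h a.1 a.2)
  choose g hg hg' using h1
  have := hT.to_subtype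
  obtain ⟨b, hb, hb'⟩ := bound_ctbl (T := range g) (countable_range g) (by
    rintro _ ⟨a, rfl⟩
    exact hg a)
  refine ⟨e b, he.lt b hb, fun a ha => ?_⟩
  exact (hg' ⟨a, ha⟩).trans (he.mono _ _ (hb' _ ⟨_, rfl⟩) hb)

/-- The tree argument: countable levels give a thread. -/
theorem exists_thread {κ : Cardinal.{u}} (hκ : κ.IsRegular) (h2 : ℵ₁ < κ)
    {𝒞 : Ordinal.{u} → Set (Set Ordinal.{u})} (h𝒞 : Coh κ 𝒞) {A : Set Ordinal.{u}}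
    (hA : ∀ a < κ.ord, ∃ b, a < b ∧ b < κ.ord ∧ b ∈ A)
    (hfreq : ∃ᶠ β in CF κ, ∃ C ∈ 𝒞 β, A ∩ Iio β ⊆ acc C) :
    ∃ D : Set Ordinal.{u}, IsClubIn D κ.ord ∧ ∀ α ∈ acc D, D ∩ Iio α ∈ 𝒞 α := by
  classical
  have hlim : ∀ᶠ β in CF κ, ∀ a < β, a + 1 < β := ev_limit hκ.aleph0_le
  -- the limit points of `A`
  let P : Set Ordinal.{u} := {η | 0 < η ∧ η < κ.ord ∧ ∀ a < η, ∃ b, a < b ∧ b < η ∧ b ∈ A}
  have hPlim : ∀ η ∈ P, ∀ a < η, a + 1 < η := by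
    intro η hη a ha
    obtain ⟨b, h1, h2, _⟩ := hη.2.2 a ha
    exact (Order.add_one_le_of_lt h1).trans_lt h2
  have hPev : ∀ᶠ η in CF κ, η ∈ P :=
    (ev_pos κ).and ((ev_lt κ).and (ev_unbounded hA))
  let L : Ordinal.{u} → Set (Set Ordinal.{u}) := fun η => {C | C ∈ 𝒞 η ∧ P ∩ Iio η ⊆ acc C}
  have hclub : ∀ η ∈ P, ∀ C ∈ L η, IsClubIn C η := fun η hη C hC =>
    h𝒞.club η hη.2.1 hη.1 (hPlim η hη) C hC.1
  have hLne : ∀ η ∈ P, (L η).Nonempty := by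
    intro η hη
    obtain ⟨β, ⟨C, hC, hAC⟩, hβ, h0, hl, hηβ⟩ := (hfreq.and_eventually
      ((ev_lt κ).and ((ev_pos κ).and (hlim.and (ev_gt hη.2.1))))).exists
    have hCc := h𝒞.club β hβ h0 hl C hC
    have hηC : η ∈ acc C := by
      refine ⟨hη.1, fun a ha => ?_, hCc.2.1 η hηβ⟩
      obtain ⟨b, h1, h2, h3⟩ := hη.2.2 a ha
      exact ⟨b, hCc.2.2 (hAC ⟨h3, h2.trans hηβ⟩), h1, h2⟩
    refine ⟨C ∩ Iio η, h𝒞.coh β hβ h0 hl C hC η hηC, ?_⟩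
    rintro p ⟨hp, hpη⟩
    refine ⟨hp.1, fun a ha => ?_, ?_⟩
    · obtain ⟨b, h1, h2, h3⟩ := hp.2.2 a ha
      exact ⟨b, ⟨hCc.2.2 (hAC ⟨h3, (h2.trans hpη).trans hηβ⟩), h2.trans hpη⟩, h1, h2⟩
    · obtain ⟨b, h1, h2, h3⟩ := hη.2.2 p hpη
      exact ⟨b, ⟨hCc.2.2 (hAC ⟨h3, h2.trans hηβ⟩), h2⟩, h1⟩
  have hrestr : ∀ η ∈ P, ∀ η' ∈ P, η < η' → ∀ C ∈ L η', C ∩ Iio η ∈ L η := by
    intro η hη η' hη' hlt C hC
    have hηC : η ∈ acc C := hC.2 ⟨hη, hlt⟩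
    refine ⟨h𝒞.coh η' hη'.2.1 hη'.1 (hPlim η' hη') C hC.1 η hηC, ?_⟩
    rintro p ⟨hp, hpη⟩
    have hpC : p ∈ acc C := hC.2 ⟨hp, lt_trans hpη hlt⟩
    refine ⟨hp.1, fun a ha => ?_, ?_⟩
    · obtain ⟨b, h1, h2, h3⟩ := hpC.2.1 a ha
      exact ⟨b, ⟨h1, h3.trans hpη⟩, h2, h3⟩
    · obtain ⟨b, h1, h2, h3⟩ := hηC.2.1 p hpη
      exact ⟨b, ⟨h1, h3⟩, h2⟩
  -- splitting bound
  have hsplit : ∀ η, ∃ b, (η ∈ P ∧ ∃ e, Norm e η) → b < η ∧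
      ∀ C ∈ L η, ∀ C' ∈ L η, C ∩ Iio b = C' ∩ Iio b → C = C' := by
    intro η
    by_cases hη : η ∈ P ∧ ∃ e, Norm e η
    · obtain ⟨hη, e, he⟩ := hη
      have hcnt : (L η).Countable := (h𝒞.cnt η hη.2.1 hη.1 (hPlim η hη)).mono fun C hC => hC.1
      have := hcnt.to_subtype
      have hpair : ∀ p : L η × L η, ∃ b < η, p.1.1 ∩ Iio b = p.2.1 ∩ Iio b → p.1.1 = p.2.1 := by
        rintro ⟨⟨C, hC⟩, ⟨C', hC'⟩⟩
        by_cases heq : C = C'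
        · exact ⟨0, hη.1, fun _ => heq⟩
        · have hex : ∃ a < η, ¬ (a ∈ C ↔ a ∈ C') := by
            by_contra hcon
            push Not at hcon
            apply heq
            ext a
            constructor
            · intro ha
              exact (hcon a ((hclub η hη C hC).1 ha)).1 ha
            · intro ha
              exact (hcon a ((hclub η hη C' hC').1 ha)).2 ha
          obtain ⟨a, ha, hne⟩ := hex
          refine ⟨a + 1, hPlim η hη a ha, fun h => absurd ?_ hne⟩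
          have h3 : a ∈ C ∩ Iio (a + 1) ↔ a ∈ C' ∩ Iio (a + 1) := by
            simp only at h
            rw [h]
          simpa using h3
      choose g hg hg' using hpair
      obtain ⟨b, hb, hb'⟩ := bound_of_norm he (T := range g) (countable_range g) (by
        rintro _ ⟨p, rfl⟩
        exact hg p)
      refine ⟨b, fun _ => ⟨hb, fun C hC C' hC' h => ?_⟩⟩
      apply hg' (⟨C, hC⟩, ⟨C', hC'⟩)
      have hle : Iio (g (⟨C, hC⟩, ⟨C', hC'⟩)) ⊆ Iio b := Iio_subset_Iio (hb' _ ⟨_, rfl⟩).le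
      rw [← inter_eq_self_of_subset_right hle, ← inter_assoc, ← inter_assoc]
      simp only
      rw [h]
    · exact ⟨0, fun h => absurd h hη⟩
  choose b hb using hsplit
  have h3 : ∃ᶠ η in CF κ, (η ∈ P ∧ ∃ e, Norm e η) ∧ b η < η :=
    ((freq_E1 hκ h2).and_eventually hPev).mono fun η hη => ⟨⟨hη.2, hη.1⟩, (hb η ⟨hη.2, hη.1⟩).1⟩
  obtain ⟨b0, hb0, h4⟩ := fodor hκ h3
  obtain ⟨p, hpb, hpκ, ⟨hpP, _⟩, _⟩ := freq_unbounded h4 hb0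
  have hcntp : (𝒞 p).Countable := h𝒞.cnt p hpκ hpP.1 (hPlim p hpP)
  have h5 : ∃ᶠ η in CF κ, ∃ c : 𝒞 p, ((η ∈ P ∧ ∃ e, Norm e η) ∧ b η = b0) ∧ p < η ∧
      ∃ C ∈ L η, C ∩ Iio p = c.1 := by
    refine (h4.and_eventually (ev_gt hpκ)).mono fun η hη => ?_
    obtain ⟨C, hC⟩ := hLne η hη.1.1.1
    exact ⟨⟨C ∩ Iio p, (hrestr p hpP η hη.1.1.1 hη.2 C hC).1⟩, hη.1, hη.2, C, hC, rfl⟩
  obtain ⟨⟨c, hc⟩, h6⟩ := freq_all hκ (by
    have h7 : #(𝒞 p) ≤ ℵ₀ := le_aleph0_iff_set_countable.2 hcntp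
    refine (Cardinal.lift_le.2 h7).trans_lt ?_
    rw [Cardinal.lift_aleph0, Cardinal.aleph0_lt_lift]
    exact aleph0_lt_aleph_one.trans h2) h5
  -- the set of good points
  let Q : Ordinal.{u} → Prop := fun η => ((η ∈ P ∧ ∃ e, Norm e η) ∧ b η = b0) ∧ p < η ∧
      ∃ C ∈ L η, C ∩ Iio p = c
  have hQ : ∃ᶠ η in CF κ, Q η := h6
  have hinj : ∀ η, Q η → ∀ C ∈ L η, ∀ C' ∈ L η, C ∩ Iio p = C' ∩ Iio p → C = C' := by
    intro η hη C hC C' hC' h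
    refine (hb η hη.1.1).2 C hC C' hC' ?_
    rw [hη.1.2]
    have hle : Iio b0 ⊆ Iio p := Iio_subset_Iio hpb.le
    rw [← inter_eq_self_of_subset_right hle, ← inter_assoc, ← inter_assoc, h]
  let D : Set Ordinal.{u} := {a | ∃ η C, Q η ∧ C ∈ L η ∧ C ∩ Iio p = c ∧ a ∈ C}
  have hD : ∀ η, Q η → ∃ C ∈ L η, D ∩ Iio η = C := by
    intro η hη
    obtain ⟨C, hC, hCp⟩ := hη.2.2
    refine ⟨C, hC, Subset.antisymm ?_ ?_⟩
    · rintro a ⟨⟨η', C', hη', hC', hC'p, ha⟩, haη⟩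
      rcases lt_trichotomy η η' with hlt | rfl | hlt
      · have h8 := hrestr η hη.1.1.1 η' hη'.1.1.1 hlt C' hC'
        have h9 : C' ∩ Iio η = C := by
          refine hinj η hη _ h8 C hC ?_
          rw [inter_assoc, inter_eq_self_of_subset_right (Iio_subset_Iio hη.2.1.le), hC'p, hCp]
        rw [← h9]
        exact ⟨ha, haη⟩
      · rw [← hinj η hη C' hC' C hC (by rw [hC'p, hCp])]
        exact ha
      · have h8 := hrestr η' hη'.1.1.1 η hη.1.1.1 hlt C hC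
        have h9 : C ∩ Iio η' = C' := by
          refine hinj η' hη' _ h8 C' hC' ?_
          rw [inter_assoc, inter_eq_self_of_subset_right (Iio_subset_Iio hη'.2.1.le), hC'p, hCp]
        rw [← h9] at ha
        exact ha.1
    · intro a ha
      exact ⟨⟨η, C, hη, hC, hCp, ha⟩, (hclub η hη.1.1.1 C hC).1 ha⟩
  have hacc : ∀ β ∈ acc D, ∃ η C, Q η ∧ C ∈ L η ∧ D ∩ Iio η = C ∧ β < η ∧ β ∈ acc C := by
    rintro β ⟨h0, h7, d, hd, hβd⟩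
    obtain ⟨η', C', hη', hC', _, hdC'⟩ := hd
    have hdκ : d < κ.ord := lt_trans ((hclub η' hη'.1.1.1 C' hC').1 hdC') hη'.1.1.1.2.1
    obtain ⟨η, hdη, _, hη⟩ := freq_unbounded hQ hdκ
    obtain ⟨C, hC, hDC⟩ := hD η hη
    refine ⟨η, C, hη, hC, hDC, hβd.trans hdη, h0, fun a ha => ?_, d, ?_, hβd⟩
    · obtain ⟨x, hx, h8, h9⟩ := h7 a ha
      refine ⟨x, ?_, h8, h9⟩
      rw [← hDC]
      exact ⟨hx, h9.trans (hβd.trans hdη)⟩
    · rw [← hDC]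
      exact ⟨⟨η', C', hη', hC', ‹_›, hdC'⟩, hdη⟩
  refine ⟨D, ⟨?_, ?_, ?_⟩, ?_⟩
  · rintro a ⟨η', C', hη', hC', _, ha⟩
    exact lt_trans ((hclub η' hη'.1.1.1 C' hC').1 ha) hη'.1.1.1.2.1
  · intro a ha
    obtain ⟨η, haη, _, hη⟩ := freq_unbounded hQ ha
    obtain ⟨C, hC, hCp⟩ := hη.2.2
    obtain ⟨x, hx, hax⟩ := (hclub η hη.1.1.1 C hC).2.1 a haη
    exact ⟨x, ⟨η, C, hη, hC, hCp, hx⟩, hax⟩
  · intro β hβ
    obtain ⟨η, C, hη, hC, hDC, hβη, hβC⟩ := hacc β hβ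
    have h8 := (hclub η hη.1.1.1 C hC).2.2 hβC
    rw [← hDC] at h8
    exact h8.1
  · intro β hβ
    obtain ⟨η, C, hη, hC, hDC, hβη, hβC⟩ := hacc β hβ
    have h8 := h𝒞.coh η hη.1.1.1.2.1 hη.1.1.1.1 (hPlim η hη.1.1.1) C hC.1 β hβC
    rw [← hDC, inter_assoc, inter_eq_self_of_subset_right (Iio_subset_Iio hβη.le)] at h8
    exact h8

end Pool.Agent.H646.SSR
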