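import Pool.Agent.H646.SSR.Main

/-!
# The tree of finite sequences, and the main theorem
-/

namespace Pool.Agent.H646.SSR

open Cardinal Ordinal Set Filter Order

universe u v

section

variable {κ : Cardinal.{u}} {U : Type u} {j : Ordinal.{u} → U} {ev : U → Ordinal.{u} → U}

/-- the model attached to a finite sequence -/
def Mt (ev : U → Ordinal.{u} → U) (M0 : Set U) : List Ordinal.{u} → Set U
  | [] => M0
  | γ :: t => ext ev (Mt ev M0 t) γ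

/-- the tree of finite sequences -/
def Tt (ev : U → Ordinal.{u} → U) (M0 : Set U) (Γ : Set U → Ordinal.{u} → Prop) :
    List Ordinal.{u} → Prop
  | [] => True
  | γ :: t => Tt ev M0 Γ t ∧ Γ (Mt ev M0 t) γ

theorem tree (hκ : κ.IsRegular) (h2 : ℵ₁ < κ) (hc : Code κ j ev)
    {𝒞 : Ordinal.{u} → Set (Set Ordinal.{u})} (h𝒞 : Coh κ 𝒞) {𝓕 : Set (List U → U)}
    (h𝓕 : 𝓕.Countable) (hS : Sys κ j ev 𝒞 𝓕) :
    ∃ A : Set Ordinal.{u}, (∀ a < κ.ord, ∃ b, a < b ∧ b < κ.ord ∧ b ∈ A) ∧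
      ∃ᶠ β in CF κ, ∃ C ∈ 𝒞 β, A ∩ Iio β ⊆ acc C := by
  classical
  have hωκ := omega1_lt h2
  have hℵ : ℵ₀ < κ := aleph0_lt_aleph_one.trans h2
  obtain ⟨M0, hM0c, hM0⟩ := exists_closed h𝓕
  -- `δ = M0 ∩ ω₁`
  obtain ⟨δ, hδ, hδM⟩ : ∃ δ < (ω₁ : Ordinal.{u}), ∀ ξ < ω₁, j ξ ∈ M0 ↔ ξ < δ := by
    have hcnt : {ξ | ξ < ω₁ ∧ j ξ ∈ M0}.Countable := by
      refine countable_of_injective_of_countable_image (f := j)
        (hc.inj.mono fun ξ hξ => lt_trans hξ.1 hωκ) ?_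
      refine hM0c.mono ?_
      rintro _ ⟨ξ, hξ, rfl⟩
      exact hξ.2
    obtain ⟨b, hb, hb'⟩ := bound_ctbl hcnt fun ξ hξ => hξ.1
    obtain ⟨δ, hδ1, hδ2⟩ := WellFounded.has_min (wellFounded_lt (α := Ordinal.{u}))
      {δ | j δ ∉ M0} ⟨b, fun h => absurd (hb' b ⟨hb, h⟩) (lt_irrefl _)⟩
    have hδb : δ ≤ b := not_lt.1 (hδ2 b fun h => absurd (hb' b ⟨hb, h⟩) (lt_irrefl _))
    refine ⟨δ, hδb.trans_lt hb, fun ξ hξ => ⟨fun h => ?_, fun h => ?_⟩⟩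
    · by_contra hcon
      rcases (not_lt.1 hcon).lt_or_eq with h3 | h3
      · exact hδ1 (hS.trans M0 hM0 ξ hξ h δ h3)
      · exact hδ1 (h3 ▸ h)
    · by_contra hcon
      exact hδ2 ξ hcon h
  let 𝓜 : Set U → Prop := fun M => M.Countable ∧ ClS 𝓕 M ∧ ∀ ξ < ω₁, j ξ ∈ M ↔ ξ < δ
  have hext : ∀ M, 𝓜 M → ∀ γ < κ.ord, SemAt j ev M γ → 𝓜 (ext ev M γ) := by
    rintro M ⟨h3, h4, h5⟩ γ hγ hsem
    refine ⟨h3.image _, hS.ext M h4 γ hγ, fun ξ hξ => ⟨?_, fun h => ?_⟩⟩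
    · rintro ⟨h, hh, he⟩
      exact (h5 ξ hξ).1 (hsem h hh ξ hξ he)
    · exact hS.sub M h4 γ hγ ((h5 ξ hξ).2 h)
  -- the values `η M`
  have hη : ∀ M, ∃ η, 𝓜 M → η < κ.ord ∧
      ∃ᶠ γ in CF κ, ((∃ e, Norm e γ) ∧ SemAt j ev M γ) ∧ eN γ δ = η := by
    intro M
    by_cases hM : 𝓜 M
    · have h3 : ∃ᶠ γ in CF κ, ((∃ e, Norm e γ) ∧ SemAt j ev M γ) ∧ eN γ δ < γ :=
        (hS.star M hM.1 hM.2.1).mono fun γ h => ⟨h, (eN_norm h.1).lt δ hδ⟩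
      obtain ⟨η, h4, h5⟩ := fodor hκ h3
      exact ⟨η, fun _ => ⟨h4, h5⟩⟩
    · exact ⟨0, fun h => absurd h hM⟩
  choose η hη using hη
  let Γ : Set U → Ordinal.{u} → Prop := fun M γ =>
    γ < κ.ord ∧ ((∃ e, Norm e γ) ∧ SemAt j ev M γ) ∧ eN γ δ = η M
  have hΓ : ∀ M, 𝓜 M → ∀ a < κ.ord, ∃ γ, a < γ ∧ γ < κ.ord ∧ Γ M γ := by
    intro M hM a ha
    obtain ⟨γ, h3, h4, h5⟩ := freq_unbounded (hη M hM).2 ha
    exact ⟨γ, h3, h4, h4, h5⟩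
  have hηgt : ∀ M, 𝓜 M → ∀ ξ ∈ oM κ j M, ξ < η M := by
    intro M hM ξ hξ
    obtain ⟨γ, h3, h4, _, ⟨hE, hsem⟩, h5⟩ := hΓ M hM ξ hξ.1
    have h6 := hext M hM γ h4 hsem
    obtain ⟨ι, h7, h8, h9⟩ := hS.eF _ h6.2.1 γ ξ h4 hξ.1 (hS.self M hM.2.1 γ h4)
      (hS.sub M hM.2.1 γ h4 hξ.2) hE h3
    have h10 : ι < δ := (h6.2.2 ι h7).1 h9
    rw [← h5]
    exact h8.trans ((eN_norm hE).mono ι δ h10 hδ)
  -- the tree
  have hT1 : ∀ t, Tt ev M0 Γ t → 𝓜 (Mt ev M0 t) := by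
    intro t
    induction t with
    | nil => exact fun _ => ⟨hM0c, hM0, hδM⟩
    | cons γ t ih =>
      rintro ⟨h3, h4⟩
      exact hext _ (ih h3) γ h4.1 h4.2.1.2
  have hT2 : ∀ t t', t <:+ t' → Tt ev M0 Γ t' → Mt ev M0 t ⊆ Mt ev M0 t' := by
    intro t t'
    induction t' with
    | nil =>
      intro h _
      rw [List.suffix_nil.1 h]
    | cons γ t' ih =>
      intro h h3
      rcases List.suffix_cons_iff.1 h with rfl | h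
      · exact Subset.rfl
      · exact (ih h h3.1).trans (hS.sub _ (hT1 t' h3.1).2.1 γ h3.2.1)
  have hT3 : ∀ t, Tt ev M0 Γ t → ∀ γ ∈ t, γ ∈ oM κ j (Mt ev M0 t) := by
    intro t
    induction t with
    | nil => simp
    | cons x t ih =>
      rintro ⟨h3, h4⟩ γ hγ
      rcases List.mem_cons.1 hγ with rfl | hγ
      · exact ⟨h4.1, hS.self _ (hT1 t h3).2.1 γ h4.1⟩
      · have h5 := ih h3 γ hγ
        exact ⟨h5.1, hS.sub _ (hT1 t h3).2.1 x h4.1 h5.2⟩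
  -- closure points
  have hB : ∀ᶠ β in CF κ, ∀ t : List Ordinal.{u}, (∀ a ∈ t, a < β) → Tt ev M0 Γ t →
      ((∀ α ∈ oM κ j (Mt ev M0 t), α < β) ∧ η (Mt ev M0 t) < β ∧
        ∀ a < β, ∃ γ, a < γ ∧ γ < β ∧ Γ (Mt ev M0 t) γ) := by
    refine ev_list hκ hℵ fun t ht => ?_
    by_cases hT : Tt ev M0 Γ t
    · have hM := hT1 t hT
      have hcnt : (oM κ j (Mt ev M0 t)).Countable := by
        refine countable_of_injective_of_countable_image (f := j)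
            (hc.inj.mono fun ξ hξ => hξ.1) ?_
        refine hM.1.mono ?_
        rintro _ ⟨a, ha, rfl⟩
        exact ha.2
      obtain ⟨b, hb, hb'⟩ := bound hκ (ι := oM κ j (Mt ev M0 t)) (by
        refine (Cardinal.lift_le.2 (le_aleph0_iff_set_countable.2 hcnt)).trans_lt ?_
        rw [Cardinal.lift_aleph0, Cardinal.aleph0_lt_lift]
        exact hℵ) (fun a => a.1) (fun a => a.2.1)
      filter_upwards [ev_gt hb, ev_gt (hη _ hM).1, ev_unbounded (hΓ _ hM)] with β h3 h4 h5 _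
      exact ⟨fun α hα => (hb' ⟨α, hα⟩).trans h3, h4, h5⟩
    · exact Eventually.of_forall fun β h => absurd h hT
  -- the local argument at `β`
  have hloc : ∀ β < κ.ord, 0 < β → (∀ a < β, a + 1 < β) →
      (∃ b : ℕ → Ordinal.{u}, (∀ n, b n < β) ∧ ∀ a < β, ∃ n, a < b n) →
      (∀ t : List Ordinal.{u}, (∀ a ∈ t, a < β) → Tt ev M0 Γ t →
      ((∀ α ∈ oM κ j (Mt ev M0 t), α < β) ∧ η (Mt ev M0 t) < β ∧
        ∀ a < β, ∃ γ, a < γ ∧ γ < β ∧ Γ (Mt ev M0 t) γ)) →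
      ∃ t, Tt ev M0 Γ t ∧ (∀ a ∈ t, a < β) ∧ ∃ C ∈ 𝒞 β, ∀ t', t <:+ t' → (∀ a ∈ t', a < β) →
        Tt ev M0 Γ t' → η (Mt ev M0 t') ∈ acc C := by
    intro β hβ h0 hlim ⟨b, hb, hb'⟩ hBβ
    have hcnt := h𝒞.cnt β hβ h0 hlim
    obtain ⟨D, hD⟩ := hcnt.exists_eq_range (h𝒞.ne β hβ h0 hlim)
    -- branches
    let Br : (ℕ → List Ordinal.{u}) → Prop := fun s =>
      (∀ n, Tt ev M0 Γ (s n) ∧ ∀ a ∈ s n, a < β) ∧ (∀ n, s n <:+ s (n + 1)) ∧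
      ∀ a < β, ∃ n, ∃ γ ∈ s n, a < γ
    have hBr : ∀ s, Br s → ∃ n, Good δ (oM κ j (⋃ k, Mt ev M0 (s k))) (D n) := by
      rintro s ⟨h3, h4, h5⟩
      have hmono : ∀ n, Mt ev M0 (s n) ⊆ Mt ev M0 (s (n + 1)) := fun n =>
        hT2 _ _ (h4 n) (h3 (n + 1)).1
      have h6 : (⋃ k, Mt ev M0 (s k)).Countable :=
        countable_iUnion fun n => (hT1 _ (h3 n).1).1
      have h7 : ClS 𝓕 (⋃ k, Mt ev M0 (s k)) :=
        ClS_iUnion hmono fun n => (hT1 _ (h3 n).1).2.1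
      by_contra hcon
      push Not at hcon
      refine hS.astar _ h6 h7 δ β ⟨?_, hδ, hβ, ?_, ?_, h0, ?_⟩
      · intro ξ hξ
        constructor
        · rintro ⟨_, h8⟩
          obtain ⟨n, hn⟩ := mem_iUnion.1 h8
          exact ((hT1 _ (h3 n).1).2.2 ξ hξ).1 hn
        · intro h8
          exact ⟨hξ.trans hωκ, mem_iUnion.2 ⟨0, ((hT1 _ (h3 0).1).2.2 ξ hξ).2 h8⟩⟩
      · rintro a ⟨haκ, ha⟩
        obtain ⟨n, hn⟩ := mem_iUnion.1 ha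
        exact (hBβ (s n) (h3 n).2 (h3 n).1).1 a ⟨haκ, hn⟩
      · intro a ha
        obtain ⟨n, γ, hγ, haγ⟩ := h5 a ha
        have h8 := hT3 _ (h3 n).1 γ hγ
        exact ⟨γ, ⟨h8.1, mem_iUnion.2 ⟨n, h8.2⟩⟩, haγ⟩
      · intro C hC
        rw [hD] at hC
        obtain ⟨n, rfl⟩ := hC
        exact hcon n
    -- Baire category
    have hBaire : ∃ n t, Tt ev M0 Γ t ∧ (∀ a ∈ t, a < β) ∧ ∀ t', t <:+ t' → (∀ a ∈ t', a < β) →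
        Tt ev M0 Γ t' → ∃ s, Br s ∧ (∃ k, s k = t') ∧
          Good δ (oM κ j (⋃ k, Mt ev M0 (s k))) (D n) := by
      by_contra hcon
      push Not at hcon
      -- nodes
      let N : Type (u+1) := {t : List Ordinal.{u} // Tt ev M0 Γ t ∧ ∀ a ∈ t, a < β}
      have hstep : ∀ (n : ℕ) (t : N), ∃ t' : N, t.1 <:+ t'.1 ∧ (∃ γ ∈ t'.1, b n < γ) ∧
          ∀ s, Br s → (∃ k, s k = t'.1) → ¬ Good δ (oM κ j (⋃ k, Mt ev M0 (s k))) (D n) := by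
        intro n t
        obtain ⟨γ, h3, h4, h5⟩ := (hBβ t.1 t.2.2 t.2.1).2.2 (b n) (hb n)
        have h6 : Tt ev M0 Γ (γ :: t.1) := ⟨t.2.1, h5⟩
        have h7 : ∀ a ∈ γ :: t.1, a < β := by
          intro a ha
          rcases List.mem_cons.1 ha with rfl | ha
          · exact h4
          · exact t.2.2 a ha
        obtain ⟨t', h8, h9, h10, h11⟩ := hcon n (γ :: t.1) h6 h7
        refine ⟨⟨t', h10, h9⟩, (List.suffix_cons γ t.1).trans h8, ⟨γ, h8.subset List.mem_cons_self, h3⟩, ?_⟩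
        intro s hs hk
        exact h11 s hs hk
      choose st hst using hstep
      let s : ℕ → N := fun n => Nat.rec (⟨[], trivial, by simp⟩ : N) (fun k t => st k t) n
      have hs : ∀ n, s (n + 1) = st n (s n) := fun n => rfl
      have hbr : Br (fun n => (s n).1) := by
        refine ⟨fun n => (s n).2, fun n => ?_, fun a ha => ?_⟩
        · show (s n).1 <:+ (s (n + 1)).1
          rw [hs]
          exact (hst n (s n)).1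
        · obtain ⟨n, hn⟩ := hb' a ha
          obtain ⟨γ, hγ, hγ'⟩ := (hst n (s n)).2.1
          exact ⟨n + 1, γ, hγ, hn.trans hγ'⟩
      obtain ⟨n, hn⟩ := hBr _ hbr
      exact (hst n (s n)).2.2 _ hbr ⟨n + 1, rfl⟩ hn
    obtain ⟨n, t, hTt, htβ, ht⟩ := hBaire
    have hDn : D n ∈ 𝒞 β := by rw [hD]; exact mem_range_self n
    have hDc := h𝒞.club β hβ h0 hlim _ hDn
    refine ⟨t, hTt, htβ, D n, hDn, fun t' h3 h4 h5 => ?_⟩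
    obtain ⟨h6, h7, h8⟩ := hBβ t' h4 h5
    obtain ⟨c₀, h9, h10⟩ := hDc.2.1 _ h7
    obtain ⟨γ, h11, h12, h13⟩ := h8 c₀ (hDc.1 h9)
    obtain ⟨s, hs, ⟨k, hk⟩, hgood⟩ := ht (γ :: t') (h3.trans (List.suffix_cons γ t')) (by
      intro a ha
      rcases List.mem_cons.1 ha with rfl | ha
      · exact h12
      · exact h4 a ha) ⟨h5, h13⟩
    have h14 : γ ∈ oM κ j (⋃ k, Mt ev M0 (s k)) := by
      refine ⟨h13.1, mem_iUnion.2 ⟨k, ?_⟩⟩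
      rw [hk]
      exact hS.self _ (hT1 t' h5).2.1 γ h13.1
    rcases hgood γ h14 h13.2.1.1 with h15 | h15
    · rw [h13.2.2] at h15
      exact h15
    · rw [h13.2.2] at h15
      exact absurd (h15 c₀ h9 h10.le) (not_le.2 h11)
  -- press down
  have hfr : ∃ᶠ β in CF κ, ∃ t, Tt ev M0 Γ t ∧ (∀ a ∈ t, a < β) ∧ ∃ C ∈ 𝒞 β, ∀ t', t <:+ t' →
      (∀ a ∈ t', a < β) → Tt ev M0 Γ t' → η (Mt ev M0 t') ∈ acc C := by
    refine ((freq_E0 hκ hℵ).and_eventually ((ev_lt κ).and ((ev_pos κ).and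
      ((ev_limit hκ.aleph0_le).and hB)))).mono ?_
    rintro β ⟨h3, h4, h5, h6, h7⟩
    exact hloc β h4 h5 h6 h3 h7
  have hsel : ∀ β, ∃ t, (∃ t, Tt ev M0 Γ t ∧ (∀ a ∈ t, a < β) ∧ ∃ C ∈ 𝒞 β, ∀ t', t <:+ t' →
      (∀ a ∈ t', a < β) → Tt ev M0 Γ t' → η (Mt ev M0 t') ∈ acc C) →
      Tt ev M0 Γ t ∧ (∀ a ∈ t, a < β) ∧ ∃ C ∈ 𝒞 β, ∀ t', t <:+ t' →
      (∀ a ∈ t', a < β) → Tt ev M0 Γ t' → η (Mt ev M0 t') ∈ acc C := by
    intro β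
    by_cases h : ∃ t, Tt ev M0 Γ t ∧ (∀ a ∈ t, a < β) ∧ ∃ C ∈ 𝒞 β, ∀ t', t <:+ t' →
      (∀ a ∈ t', a < β) → Tt ev M0 Γ t' → η (Mt ev M0 t') ∈ acc C
    · obtain ⟨t, ht⟩ := h
      exact ⟨t, fun _ => ht⟩
    · exact ⟨[], fun h' => absurd h' h⟩
  choose r hr using hsel
  have hfr2 : ∃ᶠ β in CF κ, (Tt ev M0 Γ (r β) ∧ ∃ C ∈ 𝒞 β, ∀ t', r β <:+ t' →
      (∀ a ∈ t', a < β) → Tt ev M0 Γ t' → η (Mt ev M0 t') ∈ acc C) ∧ ∀ a ∈ r β, a < β :=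
    hfr.mono fun β h => ⟨⟨(hr β h).1, (hr β h).2.2⟩, (hr β h).2.1⟩
  obtain ⟨t, htκ, hfr3⟩ := fodor_list hκ hℵ hfr2
  obtain ⟨β₀, ⟨hTr, _⟩, hrt⟩ := hfr3.exists
  rw [hrt] at hTr
  refine ⟨{a | ∃ t', t <:+ t' ∧ Tt ev M0 Γ t' ∧ η (Mt ev M0 t') = a}, ?_, ?_⟩
  · intro a ha
    obtain ⟨γ, h3, h4, h5⟩ := hΓ _ (hT1 t hTr) a ha
    have h6 : Tt ev M0 Γ (γ :: t) := ⟨hTr, h5⟩
    have h7 := hT1 _ h6
    refine ⟨η (Mt ev M0 (γ :: t)), ?_, (hη _ h7).1, γ :: t, List.suffix_cons γ t, h6, rfl⟩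
    exact h3.trans (hηgt _ h7 γ (hT3 _ h6 γ List.mem_cons_self))
  · refine hfr3.mono ?_
    rintro β ⟨⟨_, C, hC, h3⟩, h4⟩
    refine ⟨C, hC, ?_⟩
    rintro a ⟨⟨t', h5, h6, rfl⟩, h7⟩
    refine h3 t' (by rw [h4]; exact h5) (fun a ha => ?_) h6
    exact (hηgt _ (hT1 _ h6) a (hT3 _ h6 a ha)).trans h7

/-- **Main theorem.** Semistationary reflection refutes `□(κ, ω₁)` for all regular `κ ≥ ω₂`. -/
theorem main (hSSR : SemistationaryReflection.{u}) (κ : Cardinal.{u}) (hκ : κ.IsRegular)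
    (h2 : ℵ_ 2 ≤ κ) : ¬ Square κ := by
  rintro ⟨𝒞, h3, h4, h5⟩
  have h6 : ℵ₁ < κ := (aleph_lt_aleph.2 one_lt_two).trans_le h2
  have h𝒞 : Coh κ 𝒞 :=
    ⟨fun α hα h0 hl => (h3 α hα (isSuccLimit_of h0 hl)).1,
      fun α hα h0 hl => (h3 α hα (isSuccLimit_of h0 hl)).2.1,
      fun α hα h0 hl => (h3 α hα (isSuccLimit_of h0 hl)).2.2,
      fun α hα h0 hl => h4 α hα (isSuccLimit_of h0 hl)⟩
  obtain ⟨U, j, ev, hc⟩ := exists_Code hκ.aleph0_le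
  obtain ⟨𝓕, h𝓕, hS⟩ := exists_Sys hκ h6 hSSR hc h𝒞
  obtain ⟨A, hA, hfreq⟩ := tree hκ h6 hc h𝒞 h𝓕 hS
  exact h5 (exists_thread hκ h6 h𝒞 hA hfreq)

end

end Pool.Agent.H646.SSR
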